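import Mathlib
import Pool.Agent.H373R2.T7.SupLiou
import Pool.Agent.H373R2.T7.BilF
import Pool.Agent.N792.FlGen
import Pool.Agent.N792.Shp

/-!
Functions with small sums in all progressions: the functions of Liouville and Moebius (helper791).
-/

set_option autoImplicit false

namespace Pool.Agent.N791.C2

open Finset Filter Topology
open Pool.Agent.H807R2.Dav
open Pool.Agent.H373R2.T7 (SupSmall liR muC orth sup_liou sup_muC)

/-- sums in progressions with arbitrary logarithmic savings -/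
def Null (f : ℕ → ℝ) : Prop := ∀ U : ℕ, ∃ N0 : ℕ, ∀ N : ℕ, N0 ≤ N → ∀ q r : ℕ, 1 ≤ q →
  |∑ n ∈ (Icc 1 N).filter (fun n => n ≡ r [MOD q]), f n| ≤ N / Real.log N ^ U

lemma ee_norm (x : ℝ) : ‖ee x‖ = 1 := by
  unfold ee
  have : (2 * Real.pi * Complex.I * x : ℂ) = ((2 * Real.pi * x : ℝ) : ℂ) * Complex.I := by push_cast; ring
  rw [this, Complex.norm_exp_ofReal_mul_I]

lemma ee_add' (x y : ℝ) : ee (x + y) = ee x * ee y := by
  unfold ee
  rw [← Complex.exp_add]
  congr 1
  push_cast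
  ring

theorem null_of_sup (f : ℕ → ℝ) (h : ℕ → ℂ) (hf : ∀ n, h n = (f n : ℂ)) (hs : SupSmall h) : Null f := by
  intro U
  obtain ⟨N0, hN0⟩ := hs U
  refine ⟨N0, fun N hN q r hq => ?_⟩
  have hq0 : (0 : ℝ) < q := by exact_mod_cast hq
  have h1 : ∀ n : ℕ, (if n ≡ r [MOD q] then (q : ℂ) else 0) =
      ∑ t ∈ range q, ee ((t : ℝ) * ((((n : ℤ) - r : ℤ) : ℝ) / q)) := by
    intro n
    rw [orth q hq]
    by_cases hd : n ≡ r [MOD q]
    · rw [if_pos hd, if_pos ((Nat.modEq_iff_dvd.1 hd.symm))]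
    · rw [if_neg hd, if_neg (fun hh => hd (Nat.modEq_iff_dvd.2 hh).symm)]
  have h2 : ((q : ℂ)) * ∑ n ∈ (Icc 1 N).filter (fun n => n ≡ r [MOD q]), h n =
      ∑ t ∈ range q, ee (-((t : ℝ) * (r / q))) * ∑ n ∈ Icc 1 N, h n * ee ((n : ℝ) * ((t : ℝ) / q)) := by
    rw [mul_sum, sum_filter]
    have e1 : ∀ n ∈ Icc 1 N, (if n ≡ r [MOD q] then (q : ℂ) * h n else 0) =
        ∑ t ∈ range q, ee (-((t : ℝ) * (r / q))) * (h n * ee ((n : ℝ) * ((t : ℝ) / q))) := by
      intro n _
      have e2 : (if n ≡ r [MOD q] then (q : ℂ) * h n else 0) = (if n ≡ r [MOD q] then (q : ℂ) else 0) * h n := by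
        split_ifs <;> ring
      rw [e2, h1, sum_mul]
      refine sum_congr rfl fun t _ => ?_
      have e3 : (t : ℝ) * ((((n : ℤ) - r : ℤ) : ℝ) / q) = -((t : ℝ) * (r / q)) + (n : ℝ) * ((t : ℝ) / q) := by
        push_cast; ring
      rw [e3, ee_add']
      ring
    rw [sum_congr rfl e1, sum_comm]
    refine sum_congr rfl fun t _ => ?_
    rw [mul_sum]
  have h3 : (q : ℝ) * ‖∑ n ∈ (Icc 1 N).filter (fun n => n ≡ r [MOD q]), h n‖ ≤ q * (N / Real.log N ^ U) := by
    have e1 : (q : ℝ) * ‖∑ n ∈ (Icc 1 N).filter (fun n => n ≡ r [MOD q]), h n‖ =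
        ‖(q : ℂ) * ∑ n ∈ (Icc 1 N).filter (fun n => n ≡ r [MOD q]), h n‖ := by
      rw [norm_mul, Complex.norm_natCast]
    rw [e1, h2]
    refine (norm_sum_le _ _).trans ?_
    calc ∑ t ∈ range q, ‖ee (-((t : ℝ) * (r / q))) * ∑ n ∈ Icc 1 N, h n * ee ((n : ℝ) * ((t : ℝ) / q))‖
        ≤ ∑ t ∈ range q, (N : ℝ) / Real.log N ^ U := by
          refine sum_le_sum fun t _ => ?_
          rw [norm_mul, ee_norm, one_mul]
          exact hN0 N hN _
      _ = q * (N / Real.log N ^ U) := by rw [sum_const, card_range, nsmul_eq_mul]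
  have h4 := le_of_mul_le_mul_left h3 hq0
  have h5 : ∑ n ∈ (Icc 1 N).filter (fun n => n ≡ r [MOD q]), h n =
      ((∑ n ∈ (Icc 1 N).filter (fun n => n ≡ r [MOD q]), f n : ℝ) : ℂ) := by
    push_cast
    exact sum_congr rfl fun n _ => hf n
  rw [h5, Complex.norm_real, Real.norm_eq_abs] at h4
  exact h4

/-- the Liouville function, real valued -/
noncomputable def lam (n : ℕ) : ℝ := (-1 : ℝ) ^ (ArithmeticFunction.cardFactors n)

/-- the Moebius function, real valued -/
noncomputable def mob (n : ℕ) : ℝ := ((ArithmeticFunction.moebius n : ℤ) : ℝ)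

theorem null_lam : Null lam := null_of_sup lam liR (fun n => by unfold lam liR; push_cast; rfl) sup_liou

theorem null_mob : Null mob := null_of_sup mob muC (fun n => by unfold mob muC; push_cast; rfl) sup_muC

/-- the class of functions for which the theorem is proved -/
structure Cls (f : ℕ → ℝ) : Prop where
  null : Null f
  bd : ∀ n, |f n| ≤ 1
  flip : ∀ p k : ℕ, p.Prime → ¬ p ∣ k → f (p * k) = - f k

lemma cls_lam : Cls lam := by
  refine ⟨null_lam, fun n => ?_, fun p k hp hk => ?_⟩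
  · unfold lam; rw [abs_pow, abs_neg, abs_one, one_pow]
  · unfold lam
    have hk0 : k ≠ 0 := by rintro rfl; exact hk (dvd_zero _)
    rw [ArithmeticFunction.cardFactors_mul hp.ne_zero hk0, ArithmeticFunction.cardFactors_apply_prime hp, pow_add, pow_one]
    ring

lemma cls_mob : Cls mob := by
  refine ⟨null_mob, fun n => ?_, fun p k hp hk => ?_⟩
  · unfold mob
    have := @ArithmeticFunction.abs_moebius_le_one n
    exact_mod_cast this
  · unfold mob
    have h1 : Nat.Coprime p k := (Nat.Prime.coprime_iff_not_dvd hp).2 hk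
    rw [ArithmeticFunction.isMultiplicative_moebius.map_mul_of_coprime h1, ArithmeticFunction.moebius_apply_prime hp]
    push_cast
    ring

/-- sums over intervals -/
lemma ap_interval {f : ℕ → ℝ} (hf : Null f) (U : ℕ) : ∃ N0 : ℕ, ∀ A B : ℕ, N0 ≤ A → A ≤ B → ∀ q r : ℕ, 1 ≤ q →
    |∑ n ∈ (Ioc A B).filter (fun n => n ≡ r [MOD q]), f n| ≤ 2 * B / Real.log A ^ U := by
  obtain ⟨N0, h⟩ := hf U
  refine ⟨max N0 3, fun A B hA hAB q r hq => ?_⟩
  have hA3 : 3 ≤ A := (le_max_right _ _).trans hA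
  have hA0 : (3 : ℝ) ≤ A := by exact_mod_cast hA3
  have hABr : (A : ℝ) ≤ B := by exact_mod_cast hAB
  have h1 := h A ((le_max_left _ _).trans hA) q r hq
  have h2 := h B (((le_max_left _ _).trans hA).trans hAB) q r hq
  have hl0 : 0 < Real.log A := Real.log_pos (by linarith)
  have hl1 : Real.log A ≤ Real.log B := Real.log_le_log (by linarith) hABr
  have e1 : (B : ℝ) / Real.log B ^ U ≤ B / Real.log A ^ U := by
    apply div_le_div_of_nonneg_left (by linarith) (by positivity)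
    exact pow_le_pow_left₀ hl0.le hl1 U
  have e2 : (A : ℝ) / Real.log A ^ U ≤ B / Real.log A ^ U := by gcongr
  have e3 : ∑ n ∈ (Ioc A B).filter (fun n => n ≡ r [MOD q]), f n =
      ∑ n ∈ (Icc 1 B).filter (fun n => n ≡ r [MOD q]), f n - ∑ n ∈ (Icc 1 A).filter (fun n => n ≡ r [MOD q]), f n := by
    rw [eq_sub_iff_add_eq, sum_filter, sum_filter, sum_filter]
    have d1 : Icc 1 B = Ioc 0 B := rfl
    have d2 : Icc 1 A = Ioc 0 A := rfl
    rw [d1, d2, add_comm]
    exact sum_Ioc_consecutive _ (Nat.zero_le _) hAB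
  rw [e3]
  calc _ ≤ _ + _ := abs_sub _ _
    _ ≤ B / Real.log A ^ U + B / Real.log A ^ U := by linarith
    _ = 2 * B / Real.log A ^ U := by ring

end Pool.Agent.N791.C2
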