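import Mathlib
import Pool.Agent.N791.C2.Ap
import Pool.Agent.N792.RXEa
import Pool.Agent.N792.TG6

/-!
The coefficients of the cofactors, sums in progressions (helper791).
-/

set_option autoImplicit false

namespace Pool.Agent.N791.C2

open Finset Filter Topology
open Pool.Agent.N792.XEa (harm_le)

/-- the primes in `(s, t]` -/
def PP (s t : ℕ) : Finset ℕ := (Ioc s t).filter Nat.Prime

/-- the number of the prime divisors in `(s, t]` -/
def om (s t k : ℕ) : ℕ := #((PP s t).filter (fun p => p ∣ k))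

/-- the sum of the reciprocals of the primes in `(s, t]` -/
noncomputable def Lm (s t : ℕ) : ℝ := ∑ p ∈ PP s t, 1 / (p : ℝ)

lemma mem_PP {s t p : ℕ} : p ∈ PP s t ↔ (s < p ∧ p ≤ t) ∧ p.Prime := by
  unfold PP
  rw [mem_filter, mem_Ioc]

lemma Lm_nonneg (s t : ℕ) : 0 ≤ Lm s t := sum_nonneg fun p _ => by positivity

lemma Lm_le {s t x : ℕ} (hx : 1 ≤ x) (htx : t ≤ x) : Lm s t ≤ 1 + Real.log x := by
  unfold Lm PP
  exact (sum_le_sum_of_subset_of_nonneg (filter_subset _ _) fun _ _ _ => by positivity).trans (harm_le hx htx)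

lemma card_PP_le (s t : ℕ) : #(PP s t) ≤ t := by
  unfold PP
  refine (card_filter_le _ _).trans ?_
  rw [Nat.card_Ioc]; omega

lemma sum_om (f : ℕ → ℝ) (s t : ℕ) (S : Finset ℕ) :
    ∑ k ∈ S, f k * (om s t k : ℝ) = ∑ p ∈ PP s t, ∑ k ∈ S.filter (fun k => p ∣ k), f k := by
  have h1 : ∀ k ∈ S, f k * (om s t k : ℝ) = ∑ p ∈ PP s t, if p ∣ k then f k else 0 := by
    intro k _
    unfold om
    rw [card_filter]
    push_cast
    rw [mul_sum]
    refine sum_congr rfl fun p _ => ?_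
    split_ifs <;> simp
  rw [sum_congr rfl h1, sum_comm]
  refine sum_congr rfl fun p _ => ?_
  rw [sum_filter]

lemma cls_inv (p q r : ℕ) (hq : 1 ≤ q) (hpq : Nat.Coprime p q) :
    ∃ r' : ℕ, ∀ l : ℕ, p * l ≡ r [MOD q] ↔ l ≡ r' [MOD q] := by
  have : NeZero q := ⟨by omega⟩
  refine ⟨(((r : ZMod q) * ((ZMod.unitOfCoprime p hpq)⁻¹ : (ZMod q)ˣ)).val), fun l => ?_⟩
  rw [← ZMod.natCast_eq_natCast_iff, ← ZMod.natCast_eq_natCast_iff, ZMod.natCast_zmod_val]
  push_cast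
  constructor
  · intro h
    rw [← h]
    have : (p : ZMod q) = (ZMod.unitOfCoprime p hpq : ZMod q) := (ZMod.coe_unitOfCoprime p hpq).symm
    rw [this, mul_comm ((ZMod.unitOfCoprime p hpq : ZMod q)) (l : ZMod q), mul_assoc, Units.mul_inv, mul_one]
  · intro h
    rw [h]
    have : (p : ZMod q) = (ZMod.unitOfCoprime p hpq : ZMod q) := (ZMod.coe_unitOfCoprime p hpq).symm
    rw [this, mul_comm (r : ZMod q), ← mul_assoc, Units.mul_inv, one_mul]

lemma dil (f : ℕ → ℝ) (p A v q r : ℕ) (hp : 0 < p) :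
    ∑ k ∈ ((Ioc A v).filter (fun k => k ≡ r [MOD q])).filter (fun k => p ∣ k), f k =
      ∑ l ∈ (Ioc (A / p) (v / p)).filter (fun l => p * l ≡ r [MOD q]), f (p * l) := by
  have h1 : ((Ioc A v).filter (fun k => k ≡ r [MOD q])).filter (fun k => p ∣ k) =
      ((Ioc (A / p) (v / p)).filter (fun l => p * l ≡ r [MOD q])).image (fun l => p * l) := by
    ext k
    simp only [mem_filter, mem_Ioc, mem_image]
    constructor
    · rintro ⟨⟨⟨h1, h2⟩, h3⟩, l, rfl⟩
      refine ⟨l, ⟨⟨?_, ?_⟩, h3⟩, rfl⟩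
      · rw [Nat.div_lt_iff_lt_mul hp, mul_comm]; exact h1
      · rw [Nat.le_div_iff_mul_le hp, mul_comm]; exact h2
    · rintro ⟨l, ⟨⟨h1, h2⟩, h3⟩, rfl⟩
      rw [Nat.div_lt_iff_lt_mul hp, mul_comm] at h1
      rw [Nat.le_div_iff_mul_le hp, mul_comm] at h2
      exact ⟨⟨⟨h1, h2⟩, h3⟩, Dvd.intro _ rfl⟩
  rw [h1, sum_image (fun l1 _ l2 _ h => Nat.eq_of_mul_eq_mul_left hp h)]

/-- the sum over the multiples of one prime -/
lemma one_prime {f : ℕ → ℝ} (hf : Cls f) (U N0 : ℕ)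
    (hN0 : ∀ A B : ℕ, N0 ≤ A → A ≤ B → ∀ q r : ℕ, 1 ≤ q →
      |∑ n ∈ (Ioc A B).filter (fun n => n ≡ r [MOD q]), f n| ≤ 2 * B / Real.log A ^ U)
    (p A v q r : ℕ) (hp : p.Prime) (hpq : Nat.Coprime p q) (hq : 1 ≤ q) (hA : N0 ≤ A / p) (hAv : A ≤ v) :
    |∑ k ∈ ((Ioc A v).filter (fun k => k ≡ r [MOD q])).filter (fun k => p ∣ k), f k| ≤
      2 * ((v : ℝ) / p) / Real.log ((A / p : ℕ) : ℝ) ^ U + 2 * (v / (p : ℝ) ^ 2) := by
  have hp0 : 0 < p := hp.pos
  have hp0r : (0 : ℝ) < p := by exact_mod_cast hp0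
  rw [dil f p A v q r hp0]
  obtain ⟨r', hr'⟩ := cls_inv p q r hq hpq
  rw [filter_congr (fun l _ => hr' l)]
  set T := (Ioc (A / p) (v / p)).filter (fun l => l ≡ r' [MOD q]) with hT
  have h1 : ∑ l ∈ T, f (p * l) = - ∑ l ∈ T, f l + ∑ l ∈ T, (f (p * l) + f l) := by
    rw [sum_add_distrib]; ring
  have h2 := hN0 (A / p) (v / p) hA (Nat.div_le_div_right hAv) q r' hq
  have h3 : |∑ l ∈ T, (f (p * l) + f l)| ≤ 2 * (v / (p : ℝ) ^ 2) := by
    calc |∑ l ∈ T, (f (p * l) + f l)| ≤ ∑ l ∈ T, |f (p * l) + f l| := abs_sum_le_sum_abs _ _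
      _ ≤ ∑ l ∈ T, (if p ∣ l then (2 : ℝ) else 0) := by
          refine sum_le_sum fun l _ => ?_
          split_ifs with h
          · have a1 := hf.bd (p * l)
            have a2 := hf.bd l
            calc _ ≤ |f (p * l)| + |f l| := abs_add_le _ _
              _ ≤ 2 := by linarith
          · rw [hf.flip p l hp h, neg_add_cancel, abs_zero]
      _ ≤ ∑ l ∈ Ioc 0 (v / p), (if p ∣ l then (2 : ℝ) else 0) := by
          refine sum_le_sum_of_subset_of_nonneg ?_ fun l _ _ => by split_ifs <;> norm_num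
          intro l hl
          rw [hT, mem_filter, mem_Ioc] at hl
          rw [mem_Ioc]; omega
      _ = 2 * ((v / p / p : ℕ) : ℝ) := by
          rw [← sum_filter, sum_const, Nat.Ioc_filter_dvd_card_eq_div, nsmul_eq_mul]; ring
      _ ≤ 2 * (v / (p : ℝ) ^ 2) := by
          have b1 : ((v / p / p : ℕ) : ℝ) ≤ ((v / p : ℕ) : ℝ) / p := Nat.cast_div_le
          have b2 : ((v / p : ℕ) : ℝ) ≤ (v : ℝ) / p := Nat.cast_div_le
          have b3 : ((v / p : ℕ) : ℝ) / p ≤ ((v : ℝ) / p) / p := by gcongr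
          have b4 : ((v : ℝ) / p) / p = v / (p : ℝ) ^ 2 := by rw [div_div, sq]
          linarith
  have h4 : 2 * ((v / p : ℕ) : ℝ) / Real.log ((A / p : ℕ) : ℝ) ^ U ≤ 2 * ((v : ℝ) / p) / Real.log ((A / p : ℕ) : ℝ) ^ U := by
    have b2 : ((v / p : ℕ) : ℝ) ≤ (v : ℝ) / p := Nat.cast_div_le
    have b0 : 0 ≤ Real.log ((A / p : ℕ) : ℝ) := Real.log_natCast_nonneg _
    gcongr
  rw [h1]
  calc |-∑ l ∈ T, f l + ∑ l ∈ T, (f (p * l) + f l)| ≤ |-∑ l ∈ T, f l| + |∑ l ∈ T, (f (p * l) + f l)| := abs_add_le _ _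
    _ ≤ _ := by rw [abs_neg]; linarith

lemma tele {s t : ℕ} (hs : 0 < s) : ∑ p ∈ Ioc s t, 1 / ((p : ℝ) * ((p : ℝ) - 1)) ≤ 1 / (s : ℝ) := by
  have hs' : (0 : ℝ) < s := by exact_mod_cast hs
  rcases le_total t s with h | h
  · rw [Ioc_eq_empty (by omega), sum_empty]; positivity
  · have key : ∀ t : ℕ, s ≤ t → ∑ p ∈ Ioc s t, 1 / ((p : ℝ) * ((p : ℝ) - 1)) = 1 / (s : ℝ) - 1 / t := by
      intro t ht
      induction t, ht using Nat.le_induction with
      | base => simp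
      | succ n hn ih =>
        rw [Finset.sum_Ioc_succ_top hn, ih]
        have hn' : (0 : ℝ) < n := by
          have : 0 < n := by omega
          exact_mod_cast this
        push_cast
        have e1 : (n : ℝ) + 1 - 1 = n := by ring
        rw [e1]
        field_simp
        ring
    rw [key t h]
    have : 0 ≤ 1 / (t : ℝ) := by positivity
    linarith

/-- the weights of the cofactors -/
noncomputable def be (f : ℕ → ℝ) (s t k : ℕ) : ℝ := f k * (1 - (om s t k : ℝ) / 2)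

theorem be_null {f : ℕ → ℝ} (hf : Cls f) (ε : ℝ) (hε : 0 < ε) (hε1 : ε ≤ 1 / 100) (E U : ℕ) : ∃ x0 : ℕ, ∀ x : ℕ, x0 ≤ x →
    ∀ s t A v q r : ℕ, (x : ℝ) ^ (1 / 2 : ℝ) ≤ s → (t : ℝ) ≤ (x : ℝ) ^ (1 - ε) → x ≤ A → A ≤ v → 1 ≤ q →
    (q : ℝ) ≤ Real.log x ^ E →
    |∑ k ∈ (Ioc A v).filter (fun k => k ≡ r [MOD q]), be f s t k| ≤ v / Real.log x ^ U := by
  obtain ⟨N0, hN0⟩ := ap_interval hf.null (U + 2)
  have e1 : ∀ᶠ x : ℕ in atTop, (max 10 (16 * (2 / ε) ^ (U + 2)) : ℝ) ≤ Real.log x := Pool.Agent.N792.Shp.log_ge _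
  have e2 := Pool.Agent.N792.ev_log_pow (N0 + 2) 0 (δ := ε / 2) (by positivity)
  have e3 := Pool.Agent.N792.ev_log_pow 16 (E + U + 1) (δ := 1 / 2) (by positivity)
  obtain ⟨x0, hx0⟩ := eventually_atTop.1 ((e1.and e2).and e3)
  refine ⟨max x0 3, fun x hx s t A v q r hs ht hxA hAv hq hqE => ?_⟩
  obtain ⟨⟨f1, f2⟩, f3⟩ := hx0 x ((le_max_left _ _).trans hx)
  have hx3 : 3 ≤ x := (le_max_right _ _).trans hx
  rw [pow_zero, mul_one] at f2
  set L := Real.log x with hL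
  have hL10 : 10 ≤ L := (le_max_left _ _).trans f1
  have hLb : 16 * (2 / ε) ^ (U + 2) ≤ L := (le_max_right _ _).trans f1
  have hxr : (3 : ℝ) ≤ x := by exact_mod_cast hx3
  have hx0' : (0 : ℝ) < x := by linarith
  have hx1' : (1 : ℝ) ≤ x := by linarith
  have hv0 : (0 : ℝ) ≤ v := Nat.cast_nonneg _
  have hxv : (x : ℝ) ≤ v := by exact_mod_cast hxA.trans hAv
  have hsL : 16 * L ^ (E + U + 1) ≤ s := f3.trans hs
  have hqs : q < s := by
    have h1 : (q : ℝ) < s := by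
      have h2 : L ^ E ≤ L ^ (E + U + 1) := pow_le_pow_right₀ (by linarith) (by omega)
      have h3 : 0 < L ^ (E + U + 1) := by positivity
      linarith
    exact_mod_cast h1
  have hs0 : 0 < s := by omega
  have hs0r : (0 : ℝ) < s := by exact_mod_cast hs0
  have htx : t ≤ x := by
    have : (t : ℝ) ≤ x := ht.trans (by
      calc (x : ℝ) ^ (1 - ε) ≤ (x : ℝ) ^ (1 : ℝ) := Real.rpow_le_rpow_of_exponent_le hx1' (by linarith)
        _ = x := Real.rpow_one _)
    exact_mod_cast this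
  -- the quotients
  have hquot : ∀ p ∈ PP s t, (x : ℝ) ^ (ε / 2) ≤ ((A / p : ℕ) : ℝ) ∧ N0 ≤ A / p := by
    intro p hp
    rw [mem_PP] at hp
    have hp0 : 0 < p := hp.2.pos
    have hp0r : (0 : ℝ) < p := by exact_mod_cast hp0
    have hpt : (p : ℝ) ≤ (x : ℝ) ^ (1 - ε) := le_trans (by exact_mod_cast hp.1.2) ht
    have h1 : (x : ℝ) ^ ε ≤ (A : ℝ) / p := by
      rw [le_div_iff₀ hp0r]
      calc (x : ℝ) ^ ε * p ≤ (x : ℝ) ^ ε * (x : ℝ) ^ (1 - ε) := by gcongr
        _ = (x : ℝ) ^ (1 : ℝ) := by rw [← Real.rpow_add hx0']; congr 1; ring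
        _ = x := Real.rpow_one _
        _ ≤ A := by exact_mod_cast hxA
    have h2 : (A : ℝ) / p < ((A / p : ℕ) : ℝ) + 1 := by
      rw [div_lt_iff₀ hp0r]
      have := Nat.lt_mul_div_succ A hp0
      have h3 : (A : ℝ) < ((p * (A / p + 1) : ℕ) : ℝ) := by exact_mod_cast this
      push_cast at h3
      linarith
    have h3 : (x : ℝ) ^ ε = (x : ℝ) ^ (ε / 2) * (x : ℝ) ^ (ε / 2) := by
      rw [← Real.rpow_add hx0']; congr 1; ring
    have h4 : (N0 : ℝ) + 2 ≤ (x : ℝ) ^ (ε / 2) := f2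
    have hN0r : (0 : ℝ) ≤ N0 := Nat.cast_nonneg _
    have h5 : 2 * (x : ℝ) ^ (ε / 2) ≤ (x : ℝ) ^ ε := by rw [h3]; nlinarith
    have h6 : (x : ℝ) ^ (ε / 2) ≤ ((A / p : ℕ) : ℝ) := by linarith
    refine ⟨h6, ?_⟩
    have : (N0 : ℝ) ≤ ((A / p : ℕ) : ℝ) := by linarith
    exact_mod_cast this
  have hlogq : ∀ p ∈ PP s t, (ε / 2) * L ≤ Real.log ((A / p : ℕ) : ℝ) := by
    intro p hp
    have h1 := (hquot p hp).1
    have h2 := Real.log_le_log (Real.rpow_pos_of_pos hx0' _) h1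
    rw [Real.log_rpow hx0'] at h2
    exact h2
  have hcop : ∀ p ∈ PP s t, Nat.Coprime p q := by
    intro p hp
    rw [mem_PP] at hp
    rw [Nat.Prime.coprime_iff_not_dvd hp.2]
    intro hd
    have := Nat.le_of_dvd (by omega) hd
    omega
  -- the sum without weights
  have g1 : |∑ n ∈ (Ioc A v).filter (fun n => n ≡ r [MOD q]), f n| ≤ 2 * v / L ^ (U + 2) := by
    have hA0 : N0 ≤ A := by
      have h1 : (N0 : ℝ) + 2 ≤ x := f2.trans (by
        calc (x : ℝ) ^ (ε / 2) ≤ (x : ℝ) ^ (1 : ℝ) := by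
                  apply Real.rpow_le_rpow_of_exponent_le hx1'; linarith
          _ = x := Real.rpow_one _)
      have h2 : (N0 : ℝ) ≤ A := by
        have : (x : ℝ) ≤ A := by exact_mod_cast hxA
        linarith
      exact_mod_cast h2
    have h1 := hN0 A v hA0 hAv q r hq
    refine h1.trans ?_
    have hlA : L ≤ Real.log A := Real.log_le_log hx0' (by exact_mod_cast hxA)
    apply div_le_div_of_nonneg_left (by positivity) (by positivity)
    exact pow_le_pow_left₀ (by linarith) hlA _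
  -- the sum with the weights
  have g2 : |∑ k ∈ (Ioc A v).filter (fun n => n ≡ r [MOD q]), f k * (om s t k : ℝ)| ≤
      2 * v * (1 + L) / ((ε / 2) * L) ^ (U + 2) + 2 * v / s := by
    rw [sum_om]
    refine (abs_sum_le_sum_abs _ _).trans ?_
    calc ∑ p ∈ PP s t, |∑ k ∈ ((Ioc A v).filter (fun k => k ≡ r [MOD q])).filter (fun k => p ∣ k), f k|
        ≤ ∑ p ∈ PP s t, (2 * v / ((ε / 2) * L) ^ (U + 2) * (1 / (p : ℝ)) + 2 * v / s * (1 / ((p : ℝ) * ((p : ℝ) - 1)) * s)) := by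
          refine sum_le_sum fun p hp => ?_
          have h1 := one_prime hf (U + 2) N0 hN0 p A v q r (mem_PP.1 hp).2 (hcop p hp) hq (hquot p hp).2 hAv
          refine h1.trans (add_le_add ?_ ?_)
          · have h2 := hlogq p hp
            have h3 : 0 < (ε / 2) * L := by positivity
            calc 2 * ((v : ℝ) / p) / Real.log ((A / p : ℕ) : ℝ) ^ (U + 2)
                ≤ 2 * ((v : ℝ) / p) / ((ε / 2) * L) ^ (U + 2) := by
                  apply div_le_div_of_nonneg_left (by positivity) (by positivity)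
                  exact pow_le_pow_left₀ h3.le h2 _
              _ = 2 * v / ((ε / 2) * L) ^ (U + 2) * (1 / (p : ℝ)) := by ring
          · have hp1 : s < p := (mem_PP.1 hp).1.1
            have hp2 : (2 : ℝ) ≤ p := by exact_mod_cast (mem_PP.1 hp).2.two_le
            have h3 : 2 * (v : ℝ) / s * (1 / ((p : ℝ) * ((p : ℝ) - 1)) * s) = 2 * (v / ((p : ℝ) * ((p : ℝ) - 1))) := by
              field_simp
            rw [h3]
            have h4 : (v : ℝ) / (p : ℝ) ^ 2 ≤ v / ((p : ℝ) * ((p : ℝ) - 1)) := by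
              apply div_le_div_of_nonneg_left hv0 (by nlinarith)
              nlinarith
            linarith
      _ = 2 * v / ((ε / 2) * L) ^ (U + 2) * Lm s t + 2 * v / s * ((∑ p ∈ PP s t, 1 / ((p : ℝ) * ((p : ℝ) - 1))) * s) := by
          rw [sum_add_distrib, ← mul_sum, ← mul_sum, ← sum_mul]
          rfl
      _ ≤ 2 * v / ((ε / 2) * L) ^ (U + 2) * (1 + L) + 2 * v / s * 1 := by
          refine add_le_add ?_ ?_
          · exact mul_le_mul_of_nonneg_left (Lm_le (by omega) htx) (by positivity)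
          · refine mul_le_mul_of_nonneg_left ?_ (by positivity)
            have h1 : ∑ p ∈ PP s t, 1 / ((p : ℝ) * ((p : ℝ) - 1)) ≤ 1 / (s : ℝ) := by
              calc ∑ p ∈ PP s t, 1 / ((p : ℝ) * ((p : ℝ) - 1)) ≤ ∑ p ∈ Ioc s t, 1 / ((p : ℝ) * ((p : ℝ) - 1)) := by
                    refine sum_le_sum_of_subset_of_nonneg (filter_subset _ _) fun n hn _ => ?_
                    rw [mem_Ioc] at hn
                    have : (1 : ℝ) ≤ n := by
                      have : 1 ≤ n := by omega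
                      exact_mod_cast this
                    have h2 : 0 ≤ (n : ℝ) * ((n : ℝ) - 1) := by nlinarith
                    positivity
                _ ≤ 1 / (s : ℝ) := tele hs0
            calc (∑ p ∈ PP s t, 1 / ((p : ℝ) * ((p : ℝ) - 1))) * s ≤ 1 / (s : ℝ) * s := by gcongr
              _ = 1 := by field_simp
      _ = 2 * v * (1 + L) / ((ε / 2) * L) ^ (U + 2) + 2 * v / s := by ring
  have g3 : ∑ k ∈ (Ioc A v).filter (fun k => k ≡ r [MOD q]), be f s t k =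
      ∑ n ∈ (Ioc A v).filter (fun n => n ≡ r [MOD q]), f n -
        (∑ k ∈ (Ioc A v).filter (fun n => n ≡ r [MOD q]), f k * (om s t k : ℝ)) / 2 := by
    rw [sum_div, ← sum_sub_distrib]
    refine sum_congr rfl fun k _ => ?_
    unfold be
    ring
  rw [g3]
  have hLU : 0 < L ^ U := by positivity
  have hd1 : 2 * v / L ^ (U + 2) ≤ (1 / 5) * (v / L ^ U) := by
    have : 2 * (v : ℝ) / L ^ (U + 2) = (v / L ^ U) * (2 / L ^ 2) := by
      rw [pow_add]; field_simp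
    rw [this, mul_comm]
    apply mul_le_mul_of_nonneg_right _ (by positivity)
    rw [div_le_iff₀ (by positivity)]
    nlinarith
  have hd2 : 2 * v * (1 + L) / ((ε / 2) * L) ^ (U + 2) ≤ (1 / 4) * (v / L ^ U) := by
    have h1 : 2 * (v : ℝ) * (1 + L) / ((ε / 2) * L) ^ (U + 2) = (v / L ^ U) * (2 * (1 + L) * (2 / ε) ^ (U + 2) / L ^ 2) := by
      rw [mul_pow, div_pow ε 2, div_pow 2 ε, pow_add L U 2]; field_simp
    rw [h1, mul_comm]
    apply mul_le_mul_of_nonneg_right _ (by positivity)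
    rw [div_le_iff₀ (by positivity)]
    have h2 : 2 * (1 + L) * (2 / ε) ^ (U + 2) ≤ 2 * (2 * L) * (L / 16) := by
      apply mul_le_mul (by linarith) (by linarith) (by positivity) (by linarith)
    linarith [h2, sq L]
  have hd3 : 2 * (v : ℝ) / s ≤ (1 / 4) * (v / L ^ U) := by
    have h1 : 16 * L ^ U ≤ s := by
      have h2 : L ^ U ≤ L ^ (E + U + 1) := pow_le_pow_right₀ (by linarith) (by omega)
      linarith
    rw [div_le_iff₀ hs0r]
    have h3 : (1 / 4) * ((v : ℝ) / L ^ U) * s = v * (s / (4 * L ^ U)) := by field_simp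
    rw [h3]
    have h4 : 2 ≤ (s : ℝ) / (4 * L ^ U) := by
      rw [le_div_iff₀ (by positivity)]; linarith
    nlinarith
  have hq0 : 0 ≤ (v : ℝ) / L ^ U := by positivity
  calc _ ≤ |∑ n ∈ (Ioc A v).filter (fun n => n ≡ r [MOD q]), f n| +
        |(∑ k ∈ (Ioc A v).filter (fun n => n ≡ r [MOD q]), f k * (om s t k : ℝ)) / 2| := abs_sub _ _
    _ = |∑ n ∈ (Ioc A v).filter (fun n => n ≡ r [MOD q]), f n| +
        |∑ k ∈ (Ioc A v).filter (fun n => n ≡ r [MOD q]), f k * (om s t k : ℝ)| / 2 := by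
        rw [abs_div, abs_two]
    _ ≤ v / L ^ U := by linarith

/-- the number of the prime divisors in progressions -/
theorem om_ap (s t A v q r : ℕ) (hqs : q ≤ s) (hAv : A ≤ v) (hq : 1 ≤ q) :
    |∑ k ∈ (Ioc A v).filter (fun k => k ≡ r [MOD q]), ((om s t k : ℝ) - Lm s t)| ≤ 4 * t := by
  have hq0 : (0 : ℝ) < q := by exact_mod_cast hq
  have hq1 : (1 : ℝ) ≤ q := by exact_mod_cast hq
  have h0 := Pool.Agent.N792.fl_modcount A v q r (by omega) hAv
  have h1 : ∑ k ∈ (Ioc A v).filter (fun k => k ≡ r [MOD q]), (om s t k : ℝ) =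
      ∑ p ∈ PP s t, (#((Ioc (A / p) (v / p)).filter (fun l => p * l ≡ r [MOD q])) : ℝ) := by
    have e1 := sum_om (fun _ => (1 : ℝ)) s t ((Ioc A v).filter (fun k => k ≡ r [MOD q]))
    simp only [one_mul] at e1
    rw [e1]
    refine sum_congr rfl fun p hp => ?_
    have e2 := dil (fun _ => (1 : ℝ)) p A v q r (mem_PP.1 hp).2.pos
    rw [e2, sum_const, nsmul_eq_mul, mul_one]
  have h2 : ∀ p ∈ PP s t, |(#((Ioc (A / p) (v / p)).filter (fun l => p * l ≡ r [MOD q])) : ℝ) -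
      ((v : ℝ) - A) / q * (1 / p)| ≤ 2 := by
    intro p hp
    rw [mem_PP] at hp
    have hp0 : 0 < p := hp.2.pos
    have hp0r : (0 : ℝ) < p := by exact_mod_cast hp0
    have hcop : Nat.Coprime p q := by
      rw [Nat.Prime.coprime_iff_not_dvd hp.2]
      intro hd
      have := Nat.le_of_dvd (by omega) hd
      omega
    obtain ⟨r', hr'⟩ := cls_inv p q r hq hcop
    rw [filter_congr (fun l _ => hr' l)]
    have e1 := Pool.Agent.N792.fl_modcount (A / p) (v / p) q r' (by omega) (Nat.div_le_div_right hAv)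
    have e2 : ((v / p : ℕ) : ℝ) ≤ (v : ℝ) / p := Nat.cast_div_le
    have e3 : ((A / p : ℕ) : ℝ) ≤ (A : ℝ) / p := Nat.cast_div_le
    have e4 : (v : ℝ) / p < ((v / p : ℕ) : ℝ) + 1 := by
      rw [div_lt_iff₀ hp0r]
      have h3 : (v : ℝ) < ((p * (v / p + 1) : ℕ) : ℝ) := by exact_mod_cast Nat.lt_mul_div_succ v hp0
      push_cast at h3
      linarith
    have e5 : (A : ℝ) / p < ((A / p : ℕ) : ℝ) + 1 := by
      rw [div_lt_iff₀ hp0r]
      have h3 : (A : ℝ) < ((p * (A / p + 1) : ℕ) : ℝ) := by exact_mod_cast Nat.lt_mul_div_succ A hp0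
      push_cast at h3
      linarith
    have e6 : |(((v / p : ℕ) : ℝ) - ((A / p : ℕ) : ℝ)) / q - ((v : ℝ) - A) / q * (1 / p)| ≤ 1 := by
      have e7 : (((v / p : ℕ) : ℝ) - ((A / p : ℕ) : ℝ)) / q - ((v : ℝ) - A) / q * (1 / p) =
          ((((v / p : ℕ) : ℝ) - (v : ℝ) / p) - (((A / p : ℕ) : ℝ) - (A : ℝ) / p)) / q := by field_simp; ring
      rw [e7, abs_div, abs_of_pos hq0, div_le_one hq0]
      refine le_trans ?_ hq1
      rw [abs_le]; constructor <;> linarith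
    calc _ = |(_ - (((v / p : ℕ) : ℝ) - ((A / p : ℕ) : ℝ)) / q) + ((((v / p : ℕ) : ℝ) - ((A / p : ℕ) : ℝ)) / q - ((v : ℝ) - A) / q * (1 / p))| := by ring_nf
      _ ≤ _ + _ := abs_add_le _ _
      _ ≤ 2 := by linarith
  have hcP : (#(PP s t) : ℝ) ≤ t := by exact_mod_cast card_PP_le s t
  have h3 : |∑ p ∈ PP s t, (#((Ioc (A / p) (v / p)).filter (fun l => p * l ≡ r [MOD q])) : ℝ) -
      ((v : ℝ) - A) / q * Lm s t| ≤ 2 * t := by
    unfold Lm
    rw [mul_sum, ← sum_sub_distrib]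
    refine (abs_sum_le_sum_abs _ _).trans ?_
    calc _ ≤ ∑ p ∈ PP s t, (2 : ℝ) := sum_le_sum h2
      _ = #(PP s t) * 2 := by rw [sum_const, nsmul_eq_mul]
      _ ≤ 2 * t := by linarith
  have hLt : Lm s t ≤ t := by
    unfold Lm
    calc ∑ p ∈ PP s t, 1 / (p : ℝ) ≤ ∑ p ∈ PP s t, (1 : ℝ) := by
          refine sum_le_sum fun p hp => ?_
          have hp1 : (1 : ℝ) ≤ p := by exact_mod_cast (mem_PP.1 hp).2.one_lt.le
          rw [div_le_one (by linarith)]; exact hp1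
      _ = #(PP s t) := by rw [sum_const, nsmul_eq_mul, mul_one]
      _ ≤ t := hcP
  have h4 : |(#((Ioc A v).filter (fun k => k ≡ r [MOD q])) : ℝ) * Lm s t - ((v : ℝ) - A) / q * Lm s t| ≤ t := by
    rw [← sub_mul, abs_mul, abs_of_nonneg (Lm_nonneg s t)]
    calc _ ≤ 1 * Lm s t := mul_le_mul_of_nonneg_right h0 (Lm_nonneg s t)
      _ ≤ t := by linarith
  rw [sum_sub_distrib, sum_const, nsmul_eq_mul, h1]
  calc _ = |(∑ p ∈ PP s t, (#((Ioc (A / p) (v / p)).filter (fun l => p * l ≡ r [MOD q])) : ℝ) - ((v : ℝ) - A) / q * Lm s t) -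
        ((#((Ioc A v).filter (fun k => k ≡ r [MOD q])) : ℝ) * Lm s t - ((v : ℝ) - A) / q * Lm s t)| := by ring_nf
    _ ≤ _ + _ := abs_sub _ _
    _ ≤ 4 * t := by
      have : (0 : ℝ) ≤ t := Nat.cast_nonneg _
      linarith

end Pool.Agent.N791.C2
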