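import Mathlib
import Pool.Agent.N791.C2.Beta
import Pool.Agent.N792.FlP

/-!
The combinatorial identity and the values divisible by the square of a prime (helper791).
-/

set_option autoImplicit false

namespace Pool.Agent.N791.C2

open Finset Filter Topology
open Pool.Agent.N792 (fv rho rho_le_two)

lemma om_le_two {s t N : ℕ} (hN : 0 < N) (h : N < (s + 1) ^ 3) : om s t N ≤ 2 := by
  unfold om
  by_contra hcon
  push Not at hcon
  set P := (PP s t).filter (fun p => p ∣ N) with hP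
  have h1 : ∏ p ∈ P, p ∣ N := by
    apply Finset.prod_primes_dvd
    · intro p hp
      rw [hP, mem_filter, mem_PP] at hp
      exact hp.1.2.prime
    · intro p hp
      rw [hP, mem_filter] at hp
      exact hp.2
  have h2 : (s + 1) ^ #P ≤ ∏ p ∈ P, p := by
    apply Finset.pow_card_le_prod
    intro p hp
    rw [hP, mem_filter, mem_PP] at hp
    exact hp.1.1.1
  have h3 : (s + 1) ^ 3 ≤ (s + 1) ^ #P := Nat.pow_le_pow_right (by omega) hcon
  have h4 := Nat.le_of_dvd hN h1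
  omega

lemma om_div {s t N p : ℕ} (hp : p ∈ PP s t) (hpN : p ∣ N) (hp2 : ¬ p ^ 2 ∣ N) :
    om s t (N / p) + 1 = om s t N := by
  have hpp : p.Prime := (mem_PP.1 hp).2
  obtain ⟨k, rfl⟩ := hpN
  rw [Nat.mul_div_cancel_left k hpp.pos]
  have hk : ¬ p ∣ k := by
    intro h
    apply hp2
    obtain ⟨l, rfl⟩ := h
    exact ⟨l, by ring⟩
  unfold om
  have h1 : (PP s t).filter (fun q => q ∣ p * k) = insert p ((PP s t).filter (fun q => q ∣ k)) := by
    ext q
    simp only [mem_filter, mem_insert]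
    constructor
    · rintro ⟨h1, h2⟩
      have hq : q.Prime := (mem_PP.1 h1).2
      rcases hq.dvd_mul.1 h2 with h | h
      · left; exact (Nat.prime_dvd_prime_iff_eq hq hpp).1 h
      · right; exact ⟨h1, h⟩
    · rintro (rfl | ⟨h1, h2⟩)
      · exact ⟨hp, dvd_mul_right _ _⟩
      · exact ⟨h1, dvd_mul_of_dvd_right h2 _⟩
  rw [h1, card_insert_of_notMem]
  intro h
  exact hk (mem_filter.1 h).2

/-- the identity for the sums of `f` -/
lemma comb1 {f : ℕ → ℝ} (hf : Cls f) {s t N : ℕ} (hN : 0 < N) (h : N < (s + 1) ^ 3)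
    (hsq : ¬ ∃ p ∈ PP s t, p ^ 2 ∣ N) :
    ∑ p ∈ (PP s t).filter (fun p => p ∣ N), be f s t (N / p) = if 1 ≤ om s t N then - f N else 0 := by
  have h1 : ∀ p ∈ (PP s t).filter (fun p => p ∣ N), be f s t (N / p) = - f N * (1 - ((om s t N : ℝ) - 1) / 2) := by
    intro p hp
    rw [mem_filter] at hp
    have hp2 : ¬ p ^ 2 ∣ N := fun hh => hsq ⟨p, hp.1, hh⟩
    have e1 := om_div hp.1 hp.2 hp2
    have e2 : f N = - f (N / p) := by
      have hpp : p.Prime := (mem_PP.1 hp.1).2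
      obtain ⟨k, rfl⟩ := hp.2
      rw [Nat.mul_div_cancel_left k hpp.pos]
      apply hf.flip p k hpp
      intro hk
      apply hp2
      obtain ⟨l, rfl⟩ := hk
      exact ⟨l, by ring⟩
    unfold be
    rw [e2, ← e1]
    push_cast
    ring
  rw [sum_congr rfl h1, sum_const, nsmul_eq_mul]
  have h2 : #((PP s t).filter (fun p => p ∣ N)) = om s t N := rfl
  rw [h2]
  have h3 := om_le_two (t := t) hN h
  interval_cases om s t N
  · norm_num
  · norm_num
  · norm_num
    ring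

/-- the identity for the number of the values -/
lemma comb2 {s t N : ℕ} (hN : 0 < N) (h : N < (s + 1) ^ 3)
    (hsq : ¬ ∃ p ∈ PP s t, p ^ 2 ∣ N) :
    ∑ p ∈ (PP s t).filter (fun p => p ∣ N), (1 - (om s t (N / p) : ℝ) / 2) = if 1 ≤ om s t N then 1 else 0 := by
  have h1 : ∀ p ∈ (PP s t).filter (fun p => p ∣ N), (1 - (om s t (N / p) : ℝ) / 2) = (1 - ((om s t N : ℝ) - 1) / 2) := by
    intro p hp
    rw [mem_filter] at hp
    have hp2 : ¬ p ^ 2 ∣ N := fun hh => hsq ⟨p, hp.1, hh⟩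
    have e1 := om_div hp.1 hp.2 hp2
    rw [← e1]
    push_cast
    ring
  rw [sum_congr rfl h1, sum_const, nsmul_eq_mul]
  have h2 : #((PP s t).filter (fun p => p ∣ N)) = om s t N := rfl
  rw [h2]
  have h3 := om_le_two (t := t) hN h
  interval_cases om s t N <;> norm_num

/-- two values divisible by the square of the prime `p` -/
lemma sq_two {a b c : ℤ} {p n1 n2 s x : ℕ} (ha : 0 < a) (hp : p.Prime) (hps : s < p) (hn : n1 < n2) (hn2 : n2 ≤ x)
    (hb : |b| ≤ n1) (hs : (2 * a + |b|) * x < (s : ℤ) * s) (h1 : ((p : ℤ)) ^ 2 ∣ fv a b c n1)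
    (h2 : ((p : ℤ)) ^ 2 ∣ fv a b c n2) : (p : ℤ) ∣ b ^ 2 - 4 * a * c := by
  have hpp : Prime (p : ℤ) := Nat.prime_iff_prime_int.1 hp
  have hpz : (s : ℤ) + 1 ≤ p := by exact_mod_cast hps
  have hs0 : (0 : ℤ) ≤ s := Int.natCast_nonneg _
  have hsp : (s : ℤ) * s < (p : ℤ) ^ 2 := by nlinarith
  set u : ℤ := (n2 : ℤ) - n1 with hu
  set w : ℤ := a * ((n1 : ℤ) + n2) + b with hw
  have hnz : (n1 : ℤ) + 1 ≤ n2 := by exact_mod_cast hn
  have hn2z : (n2 : ℤ) ≤ x := by exact_mod_cast hn2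
  have hn1z : (0 : ℤ) ≤ n1 := Int.natCast_nonneg _
  have habs := neg_abs_le b
  have habs2 := le_abs_self b
  have hab0 := abs_nonneg b
  have hu0 : 0 < u := by rw [hu]; linarith
  have hw0 : 0 < w := by
    rw [hw]
    nlinarith
  have hux : u ≤ x := by rw [hu]; linarith
  have hwx : w ≤ (2 * a + |b|) * x := by
    rw [hw]
    have e1 : a * ((n1 : ℤ) + n2) ≤ a * (2 * x) := mul_le_mul_of_nonneg_left (by linarith) ha.le
    have e2 : b ≤ |b| * x := by
      have : (1 : ℤ) ≤ x := by linarith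
      nlinarith
    linarith
  have hx1 : (x : ℤ) ≤ (2 * a + |b|) * x := by
    have : (0 : ℤ) ≤ x := Int.natCast_nonneg _
    nlinarith
  have hdvd : (p : ℤ) ^ 2 ∣ u * w := by
    have : u * w = fv a b c n2 - fv a b c n1 := by
      rw [hu, hw]; unfold fv; ring
    rw [this]
    exact dvd_sub h2 h1
  have hpu : (p : ℤ) ∣ u := by
    by_contra hcon
    have hc : IsCoprime ((p : ℤ) ^ 2) u := ((Prime.coprime_iff_not_dvd hpp).2 hcon).pow_left
    have h3 := hc.dvd_of_dvd_mul_left hdvd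
    have h4 := Int.le_of_dvd hw0 h3
    linarith
  have hpw : (p : ℤ) ∣ w := by
    by_contra hcon
    have hc : IsCoprime ((p : ℤ) ^ 2) w := ((Prime.coprime_iff_not_dvd hpp).2 hcon).pow_left
    rw [mul_comm] at hdvd
    have h3 := hc.dvd_of_dvd_mul_left hdvd
    have h4 := Int.le_of_dvd hu0 h3
    linarith
  have h5 : (p : ℤ) ∣ 2 * a * n1 + b := by
    have : 2 * a * (n1 : ℤ) + b = w - a * u := by rw [hw, hu]; ring
    rw [this]
    exact dvd_sub hpw (dvd_mul_of_dvd_right hpu _)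
  have h6 : (p : ℤ) ∣ fv a b c n1 := (dvd_pow_self (p : ℤ) (by norm_num)).trans h1
  have h7 : b ^ 2 - 4 * a * c = (2 * a * (n1 : ℤ) + b) * (2 * a * (n1 : ℤ) + b) - 4 * a * fv a b c n1 := by
    unfold fv; ring
  rw [h7]
  exact dvd_sub (dvd_mul_of_dvd_right h5 _) (dvd_mul_of_dvd_right h6 _)

/-- the number of the values divisible by the square of a prime in `(s, t]` -/
lemma sq_bad {a b c : ℤ} {x1 x s t : ℕ} (ha : 0 < a) (hb : |b| ≤ x1) (hs : (2 * a + |b|) * x < (s : ℤ) * s)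
    (has : a < s) (hd0 : b ^ 2 - 4 * a * c ≠ 0) (hd : |b ^ 2 - 4 * a * c| < (s : ℤ) * s)
    (hpos : ∀ n ∈ Ioc x1 x, 0 < fv a b c n) :
    (#((Ioc x1 x).filter (fun n => ∃ p ∈ PP s t, p ^ 2 ∣ (fv a b c n).toNat)) : ℝ) ≤ t + (2 * (x : ℝ) / s + 2) := by
  classical
  have hs0 : 0 < s := by
    have : (0 : ℤ) < s := lt_trans ha has
    exact_mod_cast this
  have hs0r : (0 : ℝ) < s := by exact_mod_cast hs0
  have h1 : (Ioc x1 x).filter (fun n => ∃ p ∈ PP s t, p ^ 2 ∣ (fv a b c n).toNat) ⊆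
      (PP s t).biUnion (fun p => (Ioc x1 x).filter (fun n => p ^ 2 ∣ (fv a b c n).toNat)) := by
    intro n hn
    rw [mem_filter] at hn
    obtain ⟨hn1, p, hp, hpn⟩ := hn
    rw [mem_biUnion]
    exact ⟨p, hp, mem_filter.2 ⟨hn1, hpn⟩⟩
  have h2 : (#((Ioc x1 x).filter (fun n => ∃ p ∈ PP s t, p ^ 2 ∣ (fv a b c n).toNat)) : ℝ) ≤
      ∑ p ∈ PP s t, (#((Ioc x1 x).filter (fun n => p ^ 2 ∣ (fv a b c n).toNat)) : ℝ) := by
    have := (card_le_card h1).trans card_biUnion_le
    exact_mod_cast this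
  refine h2.trans ?_
  have hz : ∀ n ∈ Ioc x1 x, ∀ p : ℕ, p ^ 2 ∣ (fv a b c n).toNat → ((p : ℤ)) ^ 2 ∣ fv a b c n := by
    intro n hn p hpn
    have h3 := hpos n hn
    have h4 : (((fv a b c n).toNat : ℕ) : ℤ) = fv a b c n := Int.toNat_of_nonneg h3.le
    rw [← h4]
    exact_mod_cast hpn
  set D : Finset ℕ := (PP s t).filter (fun p : ℕ => (p : ℤ) ∣ b ^ 2 - 4 * a * c) with hD
  have hDcard : #D ≤ 1 := by
    rw [card_le_one]
    intro p hp q hq
    rw [hD, mem_filter, mem_PP] at hp hq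
    by_contra hne
    have hc : IsCoprime (p : ℤ) (q : ℤ) := by
      rw [Nat.isCoprime_iff_coprime]
      exact (Nat.coprime_primes hp.1.2 hq.1.2).2 hne
    have h3 : (p : ℤ) * q ∣ b ^ 2 - 4 * a * c := hc.mul_dvd hp.2 hq.2
    have h4 : (p : ℤ) * q ∣ |b ^ 2 - 4 * a * c| := (dvd_abs _ _).2 h3
    have h5 := Int.le_of_dvd (abs_pos.2 hd0) h4
    have h6 : (s : ℤ) < p := by exact_mod_cast hp.1.1.1
    have h7 : (s : ℤ) < q := by exact_mod_cast hq.1.1.1
    have h8 : (0 : ℤ) ≤ s := Int.natCast_nonneg _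
    nlinarith
  have h3 : ∀ p ∈ PP s t, (#((Ioc x1 x).filter (fun n => p ^ 2 ∣ (fv a b c n).toNat)) : ℝ) ≤
      1 + (if p ∈ D then 2 * (x : ℝ) / s + 2 else 0) := by
    intro p hp
    have hpp := mem_PP.1 hp
    by_cases hpD : p ∈ D
    · rw [if_pos hpD]
      have h4 : (Ioc x1 x).filter (fun n => p ^ 2 ∣ (fv a b c n).toNat) ⊆
          (Ioc 0 x).filter (fun m : ℕ => (p : ℤ) ∣ fv a b c m) := by
        intro n hn
        rw [mem_filter] at hn ⊢
        refine ⟨?_, (dvd_pow_self (p : ℤ) (by norm_num)).trans (hz n hn.1 p hn.2)⟩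
        rw [mem_Ioc] at hn ⊢; omega
      have h5 := (card_le_card h4).trans (Pool.Agent.N792.XEa.root_count a b c p x hpp.2.pos)
      have hpa : ¬ (p : ℤ) ∣ a := by
        intro hdv
        have := Int.le_of_dvd ha hdv
        have h6 : (s : ℤ) < p := by exact_mod_cast hpp.1.1
        linarith
      have h6 := rho_le_two a b c p hpp.2 hpa
      have h7 : #((Ioc x1 x).filter (fun n => p ^ 2 ∣ (fv a b c n).toNat)) ≤ 2 * (x / s + 1) := by
        refine h5.trans (Nat.mul_le_mul h6 ?_)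
        have : x / p ≤ x / s := Nat.div_le_div_left hpp.1.1.le hs0
        omega
      have h8 : (#((Ioc x1 x).filter (fun n => p ^ 2 ∣ (fv a b c n).toNat)) : ℝ) ≤ 2 * (((x / s : ℕ) : ℝ) + 1) := by
        exact_mod_cast h7
      have h9 : ((x / s : ℕ) : ℝ) ≤ (x : ℝ) / s := Nat.cast_div_le
      have h10 : 2 * (x : ℝ) / s = 2 * ((x : ℝ) / s) := by ring
      rw [h10]
      linarith
    · rw [if_neg hpD, add_zero]
      have h4 : #((Ioc x1 x).filter (fun n => p ^ 2 ∣ (fv a b c n).toNat)) ≤ 1 := by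
        rw [card_le_one]
        intro n1 hn1 n2 hn2
        rw [mem_filter] at hn1 hn2
        have g1 := hz n1 hn1.1 p hn1.2
        have g2 := hz n2 hn2.1 p hn2.2
        by_contra hne
        have hb1 : |b| ≤ n1 := by
          have := (mem_Ioc.1 hn1.1).1
          have : (x1 : ℤ) ≤ n1 := by exact_mod_cast this.le
          linarith
        have hb2 : |b| ≤ n2 := by
          have := (mem_Ioc.1 hn2.1).1
          have : (x1 : ℤ) ≤ n2 := by exact_mod_cast this.le
          linarith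
        apply hpD
        rw [hD, mem_filter]
        refine ⟨hp, ?_⟩
        rcases lt_or_gt_of_ne hne with h | h
        · exact sq_two ha hpp.2 hpp.1.1 h (mem_Ioc.1 hn2.1).2 hb1 hs g1 g2
        · exact sq_two ha hpp.2 hpp.1.1 h (mem_Ioc.1 hn1.1).2 hb2 hs g2 g1
      exact_mod_cast h4
  refine (sum_le_sum h3).trans ?_
  rw [sum_add_distrib, sum_const, nsmul_eq_mul, mul_one, ← sum_filter]
  have h4 : (PP s t).filter (fun p => p ∈ D) = D := by
    ext p
    rw [mem_filter]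
    constructor
    · exact fun h => h.2
    · intro h
      exact ⟨(mem_filter.1 h).1, h⟩
  rw [h4, sum_const, nsmul_eq_mul]
  have h5 : (#(PP s t) : ℝ) ≤ t := by exact_mod_cast card_PP_le s t
  have h6 : (#D : ℝ) ≤ 1 := by exact_mod_cast hDcard
  have h7 : 0 ≤ 2 * (x : ℝ) / s + 2 := by positivity
  nlinarith

end Pool.Agent.N791.C2
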