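import Mathlib
import Pool.Agent.N791.C2.Comb
import Pool.Agent.N792.QG8
import Pool.Agent.N792.QR1
import Pool.Agent.N792.QR2
import Pool.Agent.N792.QA
import Pool.Agent.N792.QD

/-!
Application of the estimate of type II (helper791).
-/

set_option autoImplicit false

namespace Pool.Agent.N791.C2

open Finset Filter Topology
open Pool.Agent.N792 (fv rho Fn Rough core_bound3 ev_log_pow q1 q4 r1 r2)

lemma eng0 (a : ℤ) (ha : 0 < a) (b : ℤ) (ε : ℝ) (hε : 0 < ε) (hε1 : ε ≤ 1 / 100) (R A : ℕ) :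
    ∃ E U x0 : ℕ, ∀ x : ℕ, x0 ≤ x → ∀ (x1 C s t : ℕ) (β : ℕ → ℝ), x1 < x → x ≤ R * x1 →
    (x : ℝ) ^ (3 / 2 + ε) ≤ C * s → (x : ℝ) ^ (1 / 2 + ε) ≤ C → C ≤ x → (x : ℝ) ^ (1 / 2 : ℝ) ≤ s →
    (t : ℝ) ≤ (x : ℝ) ^ (1 - ε) → (∀ k, |β k| ≤ 2 * Real.log x) →
    (∀ i v q r : ℕ, x ≤ 2 ^ i → 2 ^ (i + 1) ≤ x ^ 2 → 2 ^ i ≤ v → v ≤ 2 ^ (i + 1) → 1 ≤ q →
      (q : ℝ) ≤ Real.log x ^ E →
      |∑ k ∈ (Ioc (2 ^ i) v).filter (fun k => k ≡ r [MOD q]), β k| ≤ v / Real.log x ^ U) →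
    (∀ c ∈ Icc 1 C, ∀ p ∈ PP s t, ∀ n ∈ Ioc x1 x, p ∣ Fn a b n + c → (Fn a b n + c) / p ≤ x ^ 2) ∧
    ∑ c ∈ Icc 1 C, ∑ p ∈ PP s t, |∑ n ∈ (Ioc x1 x).filter (fun n => p ∣ Fn a b n + c), β ((Fn a b n + c) / p)| ≤
      C * x / Real.log x ^ A := by
  obtain ⟨D, hD⟩ : ∃ D : ℕ, D = A + 8 := ⟨_, rfl⟩
  obtain ⟨x0, h0⟩ := core_bound3 q1 q4 a ha b (1 / 10) ε (by norm_num) hε hε1 R (4 * D + 1)
  obtain ⟨x2, h2⟩ := r2 a ha b (1 / 10) ε (by norm_num) hε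
  obtain ⟨K0, hK0⟩ : ∃ K0 : ℝ, K0 = 10 ^ 12 * 4 * 2 ^ 72 := ⟨_, rfl⟩
  have hK1 : (10 : ℝ) ≤ K0 := by rw [hK0]; norm_num
  have hK2 : (16 : ℝ) ≤ K0 := by rw [hK0]; norm_num
  have hK3 : (6 * 10 ^ 7 * 2 ^ 48 : ℝ) ≤ K0 := by rw [hK0]; norm_num
  have e1 : ∀ᶠ x : ℕ in atTop, K0 ≤ Real.log x := Pool.Agent.N792.Shp.log_ge _
  obtain ⟨x3, h3⟩ := eventually_atTop.1 e1
  refine ⟨48 * D + 1, 72 * D + 1, max (max x0 x2) (max x3 3), fun x hx x1 C s t β hx1 hR hC1 hC2 hCx hs ht hβ hnull => ?_⟩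
  have g0 : x0 ≤ x := ((le_max_left _ _).trans (le_max_left _ _)).trans hx
  have g2 : x2 ≤ x := ((le_max_right _ _).trans (le_max_left _ _)).trans hx
  have g3 : x3 ≤ x := ((le_max_left _ _).trans (le_max_right _ _)).trans hx
  have hx3 : 3 ≤ x := ((le_max_right _ _).trans (le_max_right _ _)).trans hx
  have hL := h3 x g3
  set L := Real.log x with hLdef
  have hLbig : (10 : ℝ) ≤ L := hK1.trans hL
  have hL1 : (1 : ℝ) ≤ L := by linarith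
  have hx1' : (1 : ℝ) ≤ x := by
    have : 1 ≤ x := by omega
    exact_mod_cast this
  have hLD : 1 ≤ L ^ D := one_le_pow₀ hL1
  obtain ⟨m, hm1, hm2⟩ := exists_nat_pow_near (x := L ^ D) (y := (2 : ℝ)) hLD (by norm_num)
  obtain ⟨τ, hτ⟩ : ∃ τ : ℕ, τ = m + 1 := ⟨_, rfl⟩
  have hτ1 : L ^ D ≤ (2 : ℝ) ^ τ := by rw [hτ]; exact hm2.le
  have hτ2 : (2 : ℝ) ^ τ ≤ 2 * L ^ D := by rw [hτ, pow_succ]; linarith
  have hLL : L ≤ L ^ D := by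
    calc L = L ^ 1 := (pow_one L).symm
      _ ≤ L ^ D := pow_le_pow_right₀ hL1 (by omega)
  have hs10 : (x : ℝ) ^ (1 / 10 : ℝ) ≤ s :=
    le_trans (Real.rpow_le_rpow_of_exponent_le hx1' (by norm_num)) hs
  have htx : t ≤ x := by
    have : (t : ℝ) ≤ x := ht.trans (by
      calc (x : ℝ) ^ (1 - ε) ≤ (x : ℝ) ^ (1 : ℝ) := Real.rpow_le_rpow_of_exponent_le hx1' (by linarith)
        _ = x := Real.rpow_one _)
    exact_mod_cast this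
  have hrough : ∀ m ∈ PP s t, Rough s m := by
    intro p hp
    rw [mem_PP] at hp
    refine ⟨hp.2.ne_zero, fun q hq hqp => ?_⟩
    rw [(Nat.prime_dvd_prime_iff_eq hq hp.2).1 hqp]
    exact hp.1.1
  have hsum : ∀ m ∈ PP s t, ∑ c ∈ Icc 1 C, (rho a b (c : ℕ) m : ℝ) ≤ 2 * C := by
    intro p hp
    have hp' := mem_PP.1 hp
    exact h2 x g2 C s p hC2 hCx hs10 (hp'.1.2.trans htx) (hrough p hp) hp'.2.squarefree
  have hsub : PP s t ⊆ Ioc s t := filter_subset _ _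
  have hpow4 : (2 : ℝ) ^ (4 * τ) ≤ L ^ (4 * D + 1) := by
    have h5 : (2 : ℝ) ^ (4 * τ) = ((2 : ℝ) ^ τ) ^ 4 := by rw [← pow_mul]; congr 1; ring
    rw [h5]
    calc ((2 : ℝ) ^ τ) ^ 4 ≤ (2 * L ^ D) ^ 4 := pow_le_pow_left₀ (by positivity) hτ2 4
      _ = 16 * L ^ (4 * D) := by rw [mul_pow, ← pow_mul, mul_comm D 4]; norm_num
      _ ≤ L * L ^ (4 * D) := by
          exact mul_le_mul_of_nonneg_right (hK2.trans hL) (by positivity)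
      _ = L ^ (4 * D + 1) := by ring
  have hβ' : ∀ k, |β k| ≤ 2 * L := hβ
  have hAP : ∀ i v q r : ℕ, x ≤ 2 ^ i → 2 ^ (i + 1) ≤ x ^ 2 → 2 ^ i ≤ v → v ≤ 2 ^ (i + 1) → 1 ≤ q →
      q ≤ 6 * 10 ^ 7 * 2 ^ (12 * (4 * τ)) →
      |∑ k ∈ (Ioc (2 ^ i) v).filter (fun k => k ≡ r [MOD q]), β k| * (2 * (10 ^ 12 * (2 : ℝ) ^ (18 * (4 * τ)))) ≤ (2 : ℝ) ^ i := by
    intro i v q r hi1 hi2 hv1 hv2 hq hqb
    have hqE : (q : ℝ) ≤ L ^ (48 * D + 1) := by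
      have h5 : (q : ℝ) ≤ 6 * 10 ^ 7 * 2 ^ (12 * (4 * τ)) := by exact_mod_cast hqb
      refine h5.trans ?_
      have h6 : (2 : ℝ) ^ (12 * (4 * τ)) = ((2 : ℝ) ^ τ) ^ 48 := by rw [← pow_mul]; congr 1; ring
      rw [h6]
      calc 6 * 10 ^ 7 * ((2 : ℝ) ^ τ) ^ 48 ≤ 6 * 10 ^ 7 * (2 * L ^ D) ^ 48 := by
            have := pow_le_pow_left₀ (by positivity) hτ2 48
            linarith
        _ = (6 * 10 ^ 7 * 2 ^ 48) * L ^ (48 * D) := by rw [mul_pow, ← pow_mul, mul_comm D 48]; ring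
        _ ≤ L * L ^ (48 * D) := by
            exact mul_le_mul_of_nonneg_right (hK3.trans hL) (by positivity)
        _ = L ^ (48 * D + 1) := by ring
    have h7 := hnull i v q r hi1 hi2 hv1 hv2 hq hqE
    have h8 : (2 : ℝ) ^ (18 * (4 * τ)) ≤ 2 ^ 72 * L ^ (72 * D) := by
      have h6 : (2 : ℝ) ^ (18 * (4 * τ)) = ((2 : ℝ) ^ τ) ^ 72 := by rw [← pow_mul]; congr 1; ring
      rw [h6]
      calc ((2 : ℝ) ^ τ) ^ 72 ≤ (2 * L ^ D) ^ 72 := pow_le_pow_left₀ (by positivity) hτ2 72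
        _ = 2 ^ 72 * L ^ (72 * D) := by rw [mul_pow, ← pow_mul, mul_comm D 72]
    have h9 : (v : ℝ) ≤ 2 * 2 ^ i := by
      have : (v : ℝ) ≤ ((2 ^ (i + 1) : ℕ) : ℝ) := by exact_mod_cast hv2
      push_cast at this
      rw [pow_succ] at this
      linarith
    have hLU : 0 < L ^ (72 * D + 1) := by positivity
    have hL0 : 0 < L ^ (72 * D) := by positivity
    have hiP : (0 : ℝ) < 2 ^ i := by positivity
    have h10 : |∑ k ∈ (Ioc (2 ^ i) v).filter (fun k => k ≡ r [MOD q]), β k| ≤ 2 * 2 ^ i / (L * L ^ (72 * D)) := by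
      refine h7.trans ?_
      rw [pow_succ, mul_comm (L ^ (72 * D)) L]
      exact div_le_div_of_nonneg_right h9 (by positivity)
    have h11 : 2 * (10 ^ 12 * (2 : ℝ) ^ (18 * (4 * τ))) ≤ 2 * (10 ^ 12 * (2 ^ 72 * L ^ (72 * D))) := by
      have : (0 : ℝ) ≤ 2 * 10 ^ 12 := by norm_num
      linarith [mul_le_mul_of_nonneg_left h8 this]
    calc _ ≤ (2 * 2 ^ i / (L * L ^ (72 * D))) * (2 * (10 ^ 12 * (2 ^ 72 * L ^ (72 * D)))) := by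
          refine mul_le_mul h10 h11 ?_ ?_
          · positivity
          · positivity
      _ = (2 : ℝ) ^ i * (K0 / L) := by
          rw [hK0]; field_simp; ring
      _ ≤ (2 : ℝ) ^ i * 1 := by
          apply mul_le_mul_of_nonneg_left _ hiP.le
          rw [div_le_one (by linarith)]; exact hL
      _ = (2 : ℝ) ^ i := mul_one _
  obtain ⟨c1, c2⟩ := h0 x g0 x1 C s s t τ (PP s t) β (2 * L) hx1 hR hC1 hCx hs10 ht hsub hrough hsum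
    (hLL.trans hτ1) hpow4 (by linarith) hβ' hAP
  refine ⟨fun c hc p hp n hn hd => c1 c hc p (hsub hp) n hn hd, c2.trans ?_⟩
  have hC0 : (0 : ℝ) ≤ C := Nat.cast_nonneg _
  calc 2 * L * (C * x) * L ^ 6 / (2 : ℝ) ^ τ ≤ 2 * L * (C * x) * L ^ 6 / L ^ D := by gcongr
    _ = (C * x / L ^ A) * (2 / L) := by rw [hD, pow_add]; field_simp
    _ ≤ (C * x / L ^ A) * 1 := by
        apply mul_le_mul_of_nonneg_left _ (by positivity)
        rw [div_le_one (by linarith)]; linarith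
    _ = C * x / L ^ A := mul_one _

end Pool.Agent.N791.C2
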