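import Mathlib
import Pool.Agent.N791.C2.Eng
import Pool.Agent.N792.Mtm2
import Pool.Agent.N792.RXE

/-!
The sums of `f` over the values with a prime factor in `(s, t]` and the number of these values (helper791).
-/

set_option autoImplicit false

namespace Pool.Agent.N791.C2

open Finset Filter Topology
open Pool.Agent.N792 (fv rho Fn Rough rg ev_log_pow rho_le_two)
open Pool.Agent.N792.XEb (card_markov)

/-- the number of the `n` in an interval for which `p` divides the value -/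
lemma root_int (a b c : ℤ) (p x1 x : ℕ) (hp : 0 < p) (hx : x1 ≤ x) :
    |(#((Ioc x1 x).filter (fun n : ℕ => (p : ℤ) ∣ fv a b c n)) : ℝ) - rho a b c p * (((x : ℝ) - x1) / p)| ≤ rho a b c p := by
  classical
  set Rt := (range p).filter (fun r : ℕ => (p : ℤ) ∣ fv a b c r) with hRt
  have hcong : ∀ n r : ℕ, n ≡ r [MOD p] → ((p : ℤ) ∣ fv a b c n ↔ (p : ℤ) ∣ fv a b c r) := by
    intro n r h
    have h1 : (p : ℤ) ∣ (r : ℤ) - n := Nat.modEq_iff_dvd.1 h
    have h2 : fv a b c r - fv a b c n = ((r : ℤ) - n) * (a * ((r : ℤ) + n) + b) := by unfold fv; ring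
    have h3 : (p : ℤ) ∣ fv a b c r - fv a b c n := by rw [h2]; exact dvd_mul_of_dvd_left h1 _
    constructor
    · intro h4
      have := dvd_add h3 h4
      simpa using this
    · intro h4
      have := dvd_sub h4 h3
      simpa using this
  have h1 : #((Ioc x1 x).filter (fun n : ℕ => (p : ℤ) ∣ fv a b c n)) =
      ∑ r ∈ Rt, #((Ioc x1 x).filter (fun n => n ≡ r [MOD p])) := by
    rw [card_eq_sum_card_fiberwise (f := fun n => n % p) (t := Rt)]
    · refine sum_congr rfl fun r hr => ?_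
      congr 1
      ext n
      simp only [mem_filter]
      rw [hRt, mem_filter, mem_range] at hr
      constructor
      · rintro ⟨⟨h1, h2⟩, h3⟩
        refine ⟨h1, ?_⟩
        unfold Nat.ModEq
        rw [h3, Nat.mod_eq_of_lt hr.1]
      · rintro ⟨h1, h2⟩
        refine ⟨⟨h1, (hcong n r h2).2 hr.2⟩, ?_⟩
        unfold Nat.ModEq at h2
        rw [h2, Nat.mod_eq_of_lt hr.1]
    · intro n hn
      rw [mem_coe, mem_filter] at hn
      rw [mem_coe, hRt, mem_filter, mem_range]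
      exact ⟨Nat.mod_lt _ hp, (hcong n (n % p) (Nat.mod_modEq n p).symm).1 hn.2⟩
  have h2 : (rho a b c p : ℝ) = ∑ r ∈ Rt, (1 : ℝ) := by
    rw [sum_const, nsmul_eq_mul, mul_one]; rfl
  rw [h1, h2]
  push_cast
  rw [sum_mul, ← sum_sub_distrib]
  refine (abs_sum_le_sum_abs _ _).trans (sum_le_sum fun r _ => ?_)
  rw [one_mul]
  exact Pool.Agent.N792.fl_modcount x1 x p r hp hx

/-- the cut weights -/
noncomputable def b1 (f : ℕ → ℝ) (s t X k : ℕ) : ℝ := if 0 < k ∧ k ≤ X then be f s t k else 0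

/-- the cut weights -/
noncomputable def b2 (s t X k : ℕ) : ℝ := if 0 < k ∧ k ≤ X then (om s t k : ℝ) - Lm s t else 0

lemma be_abs {f : ℕ → ℝ} (hf : Cls f) {s t k : ℕ} (hk : 0 < k) (h : k < (s + 1) ^ 3) : |be f s t k| ≤ 1 := by
  unfold be
  have h1 := om_le_two (t := t) hk h
  have h2 : (om s t k : ℝ) ≤ 2 := by exact_mod_cast h1
  have h3 : (0 : ℝ) ≤ om s t k := Nat.cast_nonneg _
  rw [abs_mul]
  have h4 : |1 - (om s t k : ℝ) / 2| ≤ 1 := by rw [abs_le]; constructor <;> linarith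
  calc |f k| * |1 - (om s t k : ℝ) / 2| ≤ 1 * 1 := mul_le_mul (hf.bd k) h4 (abs_nonneg _) (by norm_num)
    _ = 1 := one_mul _

/-- the three error terms -/
noncomputable def E1 (f : ℕ → ℝ) (a b : ℤ) (x1 x s t c : ℕ) : ℝ :=
  ∑ p ∈ PP s t, |∑ n ∈ (Ioc x1 x).filter (fun n => p ∣ Fn a b n + c), b1 f s t (x ^ 2) ((Fn a b n + c) / p)|

noncomputable def E2 (a b : ℤ) (x1 x s t c : ℕ) : ℝ :=
  ∑ p ∈ PP s t, |∑ n ∈ (Ioc x1 x).filter (fun n => p ∣ Fn a b n + c), b2 s t (x ^ 2) ((Fn a b n + c) / p)|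

noncomputable def E3 (a b : ℤ) (x1 x s t c : ℕ) : ℝ :=
  |∑ p ∈ PP s t, ((x : ℝ) - x1) / p * ((rho a b (c : ℕ) p : ℝ) - 1)|

lemma swap_sum (a b : ℤ) (x1 x s t c : ℕ) (g : ℕ → ℕ → ℝ) :
    ∑ p ∈ PP s t, ∑ n ∈ (Ioc x1 x).filter (fun n => p ∣ Fn a b n + c), g p n =
      ∑ n ∈ Ioc x1 x, ∑ p ∈ (PP s t).filter (fun p => p ∣ Fn a b n + c), g p n := by
  simp_rw [sum_filter]
  exact sum_comm

/-- the deterministic part -/
theorem det_part {f : ℕ → ℝ} (hf : Cls f) {a b : ℤ} (ha : 0 < a) {x1 x s t c : ℕ} (hx : x1 ≤ x) (hb : b.natAbs ≤ x1)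
    (hc : 0 < c) (hs : (2 * a + |b|) * x < (s : ℤ) * s) (has : a < s) (hd0 : b ^ 2 - 4 * a * c ≠ 0)
    (hd : |b ^ 2 - 4 * a * c| < (s : ℤ) * s) (hx3 : x ^ 2 < (s + 1) ^ 3) (hN : ∀ n ∈ Ioc x1 x, Fn a b n + c < (s + 1) ^ 3)
    (hco : ∀ p ∈ PP s t, ∀ n ∈ Ioc x1 x, p ∣ Fn a b n + c → (Fn a b n + c) / p ≤ x ^ 2) :
    |∑ n ∈ (Ioc x1 x).filter (fun n => 1 ≤ om s t (Fn a b n + c)), f (Fn a b n + c)| ≤
      E1 f a b x1 x s t c + 3 * (t + (2 * (x : ℝ) / s + 2)) ∧
    |(#((Ioc x1 x).filter (fun n => 1 ≤ om s t (Fn a b n + c))) : ℝ) - ((x : ℝ) - x1) * (Lm s t - Lm s t ^ 2 / 2)| ≤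
      E2 a b x1 x s t c + (1 + Lm s t) * (E3 a b x1 x s t c + 2 * t) + 3 * (t + (2 * (x : ℝ) / s + 2)) := by
  classical
  have hfv : ∀ n ∈ Ioc x1 x, fv a b c n = ((Fn a b n + c : ℕ) : ℤ) := by
    intro n hn
    rw [mem_Ioc] at hn
    exact Pool.Agent.N792.Mtm.fv_eq ha (hb.trans hn.1.le)
  have hNpos : ∀ n, 0 < Fn a b n + c := fun n => by omega
  have hdiv : ∀ p ∈ PP s t, ∀ n ∈ Ioc x1 x, p ∣ Fn a b n + c → 0 < (Fn a b n + c) / p := by
    intro p hp n hn hd
    exact Nat.div_pos (Nat.le_of_dvd (hNpos n) hd) (mem_PP.1 hp).2.pos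
  have hsqb : (#((Ioc x1 x).filter (fun n => ∃ p ∈ PP s t, p ^ 2 ∣ Fn a b n + c)) : ℝ) ≤ t + (2 * (x : ℝ) / s + 2) := by
    have h1 : (Ioc x1 x).filter (fun n => ∃ p ∈ PP s t, p ^ 2 ∣ Fn a b n + c) =
        (Ioc x1 x).filter (fun n => ∃ p ∈ PP s t, p ^ 2 ∣ (fv a b c n).toNat) := by
      refine filter_congr fun n hn => ?_
      rw [hfv n hn, Int.toNat_natCast]
    rw [h1]
    refine sq_bad ha ?_ hs has hd0 hd ?_
    · have h2 : (b.natAbs : ℤ) ≤ x1 := by exact_mod_cast hb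
      rwa [Int.natCast_natAbs] at h2
    · intro n hn
      rw [hfv n hn]
      exact_mod_cast hNpos n
  set Bad := (Ioc x1 x).filter (fun n => ∃ p ∈ PP s t, p ^ 2 ∣ Fn a b n + c) with hBad
  have hom2 : ∀ n ∈ Ioc x1 x, (om s t (Fn a b n + c) : ℝ) ≤ 2 := by
    intro n hn
    exact_mod_cast om_le_two (hNpos n) (hN n hn)
  -- comparison of two functions of n
  have hcmp : ∀ G H : ℕ → ℝ, (∀ n ∈ Ioc x1 x, n ∉ Bad → G n = H n) → (∀ n ∈ Ioc x1 x, |G n - H n| ≤ 3) →
      |∑ n ∈ Ioc x1 x, G n - ∑ n ∈ Ioc x1 x, H n| ≤ 3 * (t + (2 * (x : ℝ) / s + 2)) := by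
    intro G H h1 h2
    rw [← sum_sub_distrib]
    refine (abs_sum_le_sum_abs _ _).trans ?_
    calc ∑ n ∈ Ioc x1 x, |G n - H n| ≤ ∑ n ∈ Ioc x1 x, (if n ∈ Bad then (3 : ℝ) else 0) := by
          refine sum_le_sum fun n hn => ?_
          split_ifs with h
          · exact h2 n hn
          · rw [h1 n hn h, sub_self, abs_zero]
      _ = #Bad * 3 := by
          rw [← sum_filter, sum_const, nsmul_eq_mul]
          congr 2
          congr 1
          ext n
          rw [mem_filter]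
          exact ⟨fun h => h.2, fun h => ⟨(mem_filter.1 h).1, h⟩⟩
      _ ≤ _ := by linarith
  have hgood : ∀ n ∈ Ioc x1 x, n ∉ Bad → ¬ ∃ p ∈ PP s t, p ^ 2 ∣ Fn a b n + c := by
    intro n hn h1 h2
    exact h1 (mem_filter.2 ⟨hn, h2⟩)
  constructor
  · -- the first estimate
    have h1 := hcmp (fun n => ∑ p ∈ (PP s t).filter (fun p => p ∣ Fn a b n + c), be f s t ((Fn a b n + c) / p))
      (fun n => if 1 ≤ om s t (Fn a b n + c) then - f (Fn a b n + c) else 0)
      (fun n hn hnb => comb1 hf (hNpos n) (hN n hn) (hgood n hn hnb)) (fun n hn => ?_)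
    · have h2 : ∑ n ∈ Ioc x1 x, ∑ p ∈ (PP s t).filter (fun p => p ∣ Fn a b n + c), be f s t ((Fn a b n + c) / p) =
          ∑ p ∈ PP s t, ∑ n ∈ (Ioc x1 x).filter (fun n => p ∣ Fn a b n + c), b1 f s t (x ^ 2) ((Fn a b n + c) / p) := by
        rw [← swap_sum a b x1 x s t c (fun p n => be f s t ((Fn a b n + c) / p))]
        refine sum_congr rfl fun p hp => sum_congr rfl fun n hn => ?_
        rw [mem_filter] at hn
        unfold b1
        rw [if_pos ⟨hdiv p hp n hn.1 hn.2, hco p hp n hn.1 hn.2⟩]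
      have h3 : |∑ n ∈ Ioc x1 x, ∑ p ∈ (PP s t).filter (fun p => p ∣ Fn a b n + c), be f s t ((Fn a b n + c) / p)| ≤
          E1 f a b x1 x s t c := by
        rw [h2]
        exact abs_sum_le_sum_abs _ _
      have h4 : ∑ n ∈ Ioc x1 x, (if 1 ≤ om s t (Fn a b n + c) then - f (Fn a b n + c) else 0) =
          - ∑ n ∈ (Ioc x1 x).filter (fun n => 1 ≤ om s t (Fn a b n + c)), f (Fn a b n + c) := by
        rw [sum_filter, ← sum_neg_distrib]
        refine sum_congr rfl fun n _ => ?_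
        split_ifs <;> simp
      rw [h4] at h1
      have h5 := abs_le.1 h1
      have h6 := abs_le.1 h3
      rw [abs_le]
      constructor <;> linarith [h5.1, h5.2, h6.1, h6.2]
    · -- the trivial bound
      have h2 : |∑ p ∈ (PP s t).filter (fun p => p ∣ Fn a b n + c), be f s t ((Fn a b n + c) / p)| ≤ 2 := by
        refine (abs_sum_le_sum_abs _ _).trans ?_
        calc _ ≤ ∑ p ∈ (PP s t).filter (fun p => p ∣ Fn a b n + c), (1 : ℝ) := by
              refine sum_le_sum fun p hp => ?_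
              rw [mem_filter] at hp
              exact be_abs hf (hdiv p hp.1 n hn hp.2) (lt_of_le_of_lt (hco p hp.1 n hn hp.2) hx3)
          _ = om s t (Fn a b n + c) := by rw [sum_const, nsmul_eq_mul, mul_one]; rfl
          _ ≤ 2 := hom2 n hn
      have h3 : |(if 1 ≤ om s t (Fn a b n + c) then - f (Fn a b n + c) else 0)| ≤ 1 := by
        split_ifs
        · rw [abs_neg]; exact hf.bd _
        · simp
      exact (abs_sub _ _).trans (by linarith)
  · -- the second estimate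
    have h1 := hcmp (fun n => ∑ p ∈ (PP s t).filter (fun p => p ∣ Fn a b n + c), (1 - (om s t ((Fn a b n + c) / p) : ℝ) / 2))
      (fun n => if 1 ≤ om s t (Fn a b n + c) then 1 else 0)
      (fun n hn hnb => comb2 (hNpos n) (hN n hn) (hgood n hn hnb)) (fun n hn => ?_)
    · set Λ := Lm s t with hΛ
      have hΛ0 : 0 ≤ Λ := Lm_nonneg s t
      set W : ℝ := ∑ p ∈ PP s t, (#((Ioc x1 x).filter (fun n => p ∣ Fn a b n + c)) : ℝ) with hW
      have h2 : ∑ n ∈ Ioc x1 x, ∑ p ∈ (PP s t).filter (fun p => p ∣ Fn a b n + c), (1 - (om s t ((Fn a b n + c) / p) : ℝ) / 2) =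
          (1 - Λ / 2) * W - (∑ p ∈ PP s t, ∑ n ∈ (Ioc x1 x).filter (fun n => p ∣ Fn a b n + c),
            b2 s t (x ^ 2) ((Fn a b n + c) / p)) / 2 := by
        rw [← swap_sum a b x1 x s t c (fun p n => (1 - (om s t ((Fn a b n + c) / p) : ℝ) / 2)), hW, mul_sum, sum_div,
          ← sum_sub_distrib]
        refine sum_congr rfl fun p hp => ?_
        have e1 : (1 - Λ / 2) * (#((Ioc x1 x).filter (fun n => p ∣ Fn a b n + c)) : ℝ) =
            ∑ n ∈ (Ioc x1 x).filter (fun n => p ∣ Fn a b n + c), (1 - Λ / 2) := by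
          rw [sum_const, nsmul_eq_mul, mul_comm]
        rw [e1, sum_div, ← sum_sub_distrib]
        refine sum_congr rfl fun n hn => ?_
        rw [mem_filter] at hn
        unfold b2
        rw [if_pos ⟨hdiv p hp n hn.1 hn.2, hco p hp n hn.1 hn.2⟩]
        ring
      have h3 : |∑ p ∈ PP s t, ∑ n ∈ (Ioc x1 x).filter (fun n => p ∣ Fn a b n + c),
            b2 s t (x ^ 2) ((Fn a b n + c) / p)| ≤ E2 a b x1 x s t c := abs_sum_le_sum_abs _ _
      have h4 : ∑ n ∈ Ioc x1 x, (if 1 ≤ om s t (Fn a b n + c) then (1 : ℝ) else 0) =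
          (#((Ioc x1 x).filter (fun n => 1 ≤ om s t (Fn a b n + c))) : ℝ) := by
        rw [← sum_filter, sum_const, nsmul_eq_mul, mul_one]
      have hWx : |W - ((x : ℝ) - x1) * Λ| ≤ E3 a b x1 x s t c + 2 * t := by
        have e1 : ∀ p ∈ PP s t, |(#((Ioc x1 x).filter (fun n => p ∣ Fn a b n + c)) : ℝ) -
            rho a b (c : ℕ) p * (((x : ℝ) - x1) / p)| ≤ 2 := by
          intro p hp
          have hpp := mem_PP.1 hp
          have e2 := root_int a b c p x1 x hpp.2.pos hx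
          have e3 : (Ioc x1 x).filter (fun n : ℕ => (p : ℤ) ∣ fv a b c n) = (Ioc x1 x).filter (fun n => p ∣ Fn a b n + c) := by
            refine filter_congr fun n hn => ?_
            rw [hfv n hn]
            exact Int.natCast_dvd_natCast
          rw [e3] at e2
          have hpa : ¬ (p : ℤ) ∣ a := by
            intro hdv
            have := Int.le_of_dvd ha hdv
            have h6 : (s : ℤ) < p := by exact_mod_cast hpp.1.1
            linarith
          have h6 : (rho a b (c : ℕ) p : ℝ) ≤ 2 := by exact_mod_cast rho_le_two a b c p hpp.2 hpa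
          exact e2.trans h6
        have e4 : W - ((x : ℝ) - x1) * Λ = ∑ p ∈ PP s t, ((#((Ioc x1 x).filter (fun n => p ∣ Fn a b n + c)) : ℝ) -
            rho a b (c : ℕ) p * (((x : ℝ) - x1) / p)) + ∑ p ∈ PP s t, ((x : ℝ) - x1) / p * ((rho a b (c : ℕ) p : ℝ) - 1) := by
          rw [hW, hΛ]
          unfold Lm
          rw [mul_sum, ← sum_add_distrib, ← sum_sub_distrib]
          refine sum_congr rfl fun p _ => ?_
          ring
        rw [e4]
        refine (abs_add_le _ _).trans ?_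
        have e5 : |∑ p ∈ PP s t, ((#((Ioc x1 x).filter (fun n => p ∣ Fn a b n + c)) : ℝ) -
            rho a b (c : ℕ) p * (((x : ℝ) - x1) / p))| ≤ 2 * t := by
          refine (abs_sum_le_sum_abs _ _).trans ?_
          calc _ ≤ ∑ p ∈ PP s t, (2 : ℝ) := sum_le_sum e1
            _ = #(PP s t) * 2 := by rw [sum_const, nsmul_eq_mul]
            _ ≤ 2 * t := by
              have : (#(PP s t) : ℝ) ≤ t := by exact_mod_cast card_PP_le s t
              linarith
        unfold E3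
        linarith
      rw [h4] at h1
      rw [h2] at h1
      have e6 : |(1 - Λ / 2) * (W - ((x : ℝ) - x1) * Λ)| ≤ (1 + Λ) * (E3 a b x1 x s t c + 2 * t) := by
        rw [abs_mul]
        refine mul_le_mul ?_ hWx (abs_nonneg _) (by linarith)
        rw [abs_le]; constructor <;> linarith
      have h5 := abs_le.1 h1
      have h6 := abs_le.1 h3
      have h7 := abs_le.1 e6
      have hE2 : 0 ≤ E2 a b x1 x s t c := sum_nonneg fun _ _ => abs_nonneg _
      have e7 : (1 - Λ / 2) * (W - ((x : ℝ) - x1) * Λ) = (1 - Λ / 2) * W - ((x : ℝ) - x1) * (Λ - Λ ^ 2 / 2) := by ring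
      rw [e7] at h7
      rw [abs_le]
      constructor <;> linarith [h5.1, h5.2, h6.1, h6.2, h7.1, h7.2]
    · have h2 : |∑ p ∈ (PP s t).filter (fun p => p ∣ Fn a b n + c), (1 - (om s t ((Fn a b n + c) / p) : ℝ) / 2)| ≤ 2 := by
        refine (abs_sum_le_sum_abs _ _).trans ?_
        calc _ ≤ ∑ p ∈ (PP s t).filter (fun p => p ∣ Fn a b n + c), (1 : ℝ) := by
              refine sum_le_sum fun p hp => ?_
              rw [mem_filter] at hp
              have e1 := om_le_two (t := t) (hdiv p hp.1 n hn hp.2) (lt_of_le_of_lt (hco p hp.1 n hn hp.2) hx3)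
              have e2 : (om s t ((Fn a b n + c) / p) : ℝ) ≤ 2 := by exact_mod_cast e1
              have e3 : (0 : ℝ) ≤ om s t ((Fn a b n + c) / p) := Nat.cast_nonneg _
              rw [abs_le]; constructor <;> linarith
          _ = om s t (Fn a b n + c) := by rw [sum_const, nsmul_eq_mul, mul_one]; rfl
          _ ≤ 2 := hom2 n hn
      have h3 : |(if 1 ≤ om s t (Fn a b n + c) then (1 : ℝ) else 0)| ≤ 1 := by
        split_ifs <;> simp
      exact (abs_sub _ _).trans (by linarith)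

end Pool.Agent.N791.C2
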