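import Mathlib
import Pool.Agent.N791.C2.Core

/-!
The exceptional set for one interval (helper791).
-/

set_option autoImplicit false

namespace Pool.Agent.N791.C2

open Finset Filter Topology
open Pool.Agent.N792 (fv rho Fn Rough rg ev_log_pow rho_le_two r1)
open Pool.Agent.N792.XEb (card_markov)

lemma Fn_le {a b : ℤ} (ha : 0 < a) {n x : ℕ} (hb : b.natAbs ≤ n) (hn : n ≤ x) :
    Fn a b n ≤ (a.natAbs + b.natAbs) * x ^ 2 := by
  have h1 : ((Fn a b n : ℕ) : ℤ) = fv a b 0 n := by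
    have := Pool.Agent.N792.Mtm.fv_eq (c := 0) ha hb
    rw [add_zero] at this
    exact this.symm
  have h2 : fv a b 0 n ≤ ((a.natAbs + b.natAbs) * x ^ 2 : ℕ) := by
    unfold fv
    push_cast
    rw [abs_of_pos ha]
    have h3 : (n : ℤ) ≤ x := by exact_mod_cast hn
    have h4 : (0 : ℤ) ≤ n := Int.natCast_nonneg _
    have h5 : b * n ≤ |b| * (x : ℤ) ^ 2 := by
      have e1 : b * n ≤ |b| * n := mul_le_mul_of_nonneg_right (le_abs_self b) h4
      have e2 : (n : ℤ) ≤ (x : ℤ) ^ 2 := by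
        rcases Nat.eq_zero_or_pos x with h | h
        · subst h
          have : n = 0 := by omega
          subst this; simp
        · have : (1 : ℤ) ≤ x := by exact_mod_cast h
          nlinarith
      exact e1.trans (mul_le_mul_of_nonneg_left e2 (abs_nonneg b))
    have h6 : a * (n : ℤ) ^ 2 ≤ a * (x : ℤ) ^ 2 := mul_le_mul_of_nonneg_left (pow_le_pow_left₀ h4 h3 2) ha.le
    linarith
  rw [← h1] at h2
  exact_mod_cast h2

theorem one_cut {f : ℕ → ℝ} (hf : Cls f) (a : ℤ) (ha : 0 < a) (b : ℤ) (ε : ℝ) (hε : 0 < ε) (hε1 : ε ≤ 1 / 100) (R A : ℕ) :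
    ∃ x0 : ℕ, ∀ x : ℕ, x0 ≤ x → ∀ x1 C s t : ℕ, x1 < x → x ≤ R * x1 →
    (x : ℝ) ^ (3 / 2 + ε) ≤ C * s → (x : ℝ) ^ (1 / 2 + ε) ≤ C → C ≤ x → (x : ℝ) ^ (2 / 3 + ε) ≤ s →
    (t : ℝ) ≤ (x : ℝ) ^ (1 - ε) →
    ∃ Ex ⊆ Icc 1 C, (#Ex : ℝ) ≤ C / Real.log x ^ A ∧ ∀ c ∈ Icc 1 C, c ∉ Ex →
      |∑ n ∈ (Ioc x1 x).filter (fun n => 1 ≤ om s t (Fn a b n + c)), f (Fn a b n + c)| ≤ x / Real.log x ^ A ∧
      |(#((Ioc x1 x).filter (fun n => 1 ≤ om s t (Fn a b n + c))) : ℝ) - ((x : ℝ) - x1) * (Lm s t - Lm s t ^ 2 / 2)| ≤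
        x / Real.log x ^ A := by
  classical
  obtain ⟨A', hA'⟩ : ∃ A' : ℕ, A' = 2 * A + 3 := ⟨_, rfl⟩
  obtain ⟨E, U, n0, h0⟩ := eng0 a ha b ε hε hε1 R A'
  obtain ⟨n1, h1⟩ := be_null hf ε hε hε1 E U
  obtain ⟨n2, h2⟩ := r1 a ha b (1 / 10) ε A' (by norm_num) hε
  have e1 : ∀ᶠ x : ℕ in atTop, (100 : ℝ) ≤ Real.log x := Pool.Agent.N792.Shp.log_ge _
  have e2 := ev_log_pow 4 (E + U) (δ := ε) hε
  have e3 := ev_log_pow (4 * ((a.natAbs : ℝ) + b.natAbs + 1) ^ 2 + 4) 0 (δ := 3 * ε) (by positivity)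
  have e4 := ev_log_pow 100 (A + 2) (δ := ε) hε
  have e5 : ∀ᶠ x : ℕ in atTop, R * (b.natAbs + 2) + 3 ≤ x := eventually_ge_atTop _
  have e6 := ev_log_pow 1 E (δ := 1 / 2) (by norm_num)
  obtain ⟨n3, h3⟩ := eventually_atTop.1 ((((((e1.and e2).and e3).and e4).and e5)).and e6)
  refine ⟨max (max n0 n1) (max n2 n3), fun x hx x1 C s t hx1 hR hC1 hC2 hCx hs ht => ?_⟩
  have g0 : n0 ≤ x := ((le_max_left _ _).trans (le_max_left _ _)).trans hx
  have g1 : n1 ≤ x := ((le_max_right _ _).trans (le_max_left _ _)).trans hx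
  have g2 : n2 ≤ x := ((le_max_left _ _).trans (le_max_right _ _)).trans hx
  have g3 : n3 ≤ x := ((le_max_right _ _).trans (le_max_right _ _)).trans hx
  obtain ⟨⟨⟨⟨⟨f1, f2⟩, f3⟩, f4⟩, f5⟩, f6⟩ := h3 x g3
  rw [pow_zero, mul_one] at f3
  obtain ⟨L, hL⟩ : ∃ L : ℝ, L = Real.log x := ⟨_, rfl⟩
  rw [← hL] at f1 f2 f4 f6 ⊢
  have hx3 : 3 ≤ x := by omega
  have hxr : (3 : ℝ) ≤ x := by exact_mod_cast hx3
  have hx0' : (0 : ℝ) < x := by linarith
  have hx1' : (1 : ℝ) ≤ x := by linarith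
  have hL0 : 0 < L := by linarith
  have hL1 : 1 ≤ L := by linarith
  have hC0 : (0 : ℝ) ≤ C := Nat.cast_nonneg _
  have hbx1 : b.natAbs ≤ x1 := by
    by_contra hcon
    push Not at hcon
    have : R * x1 ≤ R * (b.natAbs + 2) := Nat.mul_le_mul_left _ (by omega)
    omega
  -- powers of x
  have p23 : (x : ℝ) ^ (2 / 3 : ℝ) ≤ s := le_trans (Real.rpow_le_rpow_of_exponent_le hx1' (by linarith)) hs
  have p12 : (x : ℝ) ^ (1 / 2 : ℝ) ≤ s := le_trans (Real.rpow_le_rpow_of_exponent_le hx1' (by linarith)) hs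
  have p10 : (x : ℝ) ^ (1 / 10 : ℝ) ≤ s := le_trans (Real.rpow_le_rpow_of_exponent_le hx1' (by linarith)) hs
  have hs0r : (0 : ℝ) < s := lt_of_lt_of_le (Real.rpow_pos_of_pos hx0' _) hs
  have htx : t ≤ x := by
    have : (t : ℝ) ≤ x := ht.trans (by
      calc (x : ℝ) ^ (1 - ε) ≤ (x : ℝ) ^ (1 : ℝ) := Real.rpow_le_rpow_of_exponent_le hx1' (by linarith)
        _ = x := Real.rpow_one _)
    exact_mod_cast this
  have hs3 : (x : ℝ) ^ (3 * ε) * (x : ℝ) ^ 2 ≤ (s : ℝ) ^ 3 := by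
    calc (x : ℝ) ^ (3 * ε) * (x : ℝ) ^ 2 = ((x : ℝ) ^ (2 / 3 + ε)) ^ 3 := by
          rw [← Real.rpow_natCast (x : ℝ) 2, ← Real.rpow_add hx0', ← Real.rpow_natCast ((x : ℝ) ^ (2 / 3 + ε)) 3,
            ← Real.rpow_mul hx0'.le]
          congr 1
          push_cast
          ring
      _ ≤ (s : ℝ) ^ 3 := pow_le_pow_left₀ (by positivity) hs 3
  have hs2 : (x : ℝ) ^ (1 / 3 : ℝ) * x ≤ (s : ℝ) ^ 2 := by
    calc (x : ℝ) ^ (1 / 3 : ℝ) * x = ((x : ℝ) ^ (2 / 3 : ℝ)) ^ 2 := by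
          nth_rewrite 2 [← Real.rpow_one (x : ℝ)]
          rw [← Real.rpow_add hx0', ← Real.rpow_natCast ((x : ℝ) ^ (2 / 3 : ℝ)) 2, ← Real.rpow_mul hx0'.le]
          congr 1
          push_cast
          ring
      _ ≤ (s : ℝ) ^ 2 := pow_le_pow_left₀ (by positivity) p23 2
  obtain ⟨K, hK⟩ : ∃ K : ℝ, K = (a.natAbs : ℝ) + b.natAbs + 1 := ⟨_, rfl⟩
  rw [← hK] at f3
  have hK1 : 1 ≤ K := by
    have h4 : (0 : ℝ) ≤ a.natAbs := Nat.cast_nonneg _
    have h5 : (0 : ℝ) ≤ b.natAbs := Nat.cast_nonneg _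
    rw [hK]; linarith
  have hx13 : (x : ℝ) ^ (3 * ε) ≤ (x : ℝ) ^ (1 / 3 : ℝ) := Real.rpow_le_rpow_of_exponent_le hx1' (by linarith)
  have hK13 : 4 * K ^ 2 + 4 ≤ (x : ℝ) ^ (1 / 3 : ℝ) := f3.trans hx13
  have haK : (a : ℝ) ≤ K := by
    have h4 : ((a.natAbs : ℕ) : ℝ) = (a : ℝ) := by
      rw [Nat.cast_natAbs, abs_of_pos ha]
    have h5 : (0 : ℝ) ≤ b.natAbs := Nat.cast_nonneg _
    rw [hK]; linarith
  have hbK : |(b : ℝ)| ≤ K := by
    have h4 : ((b.natAbs : ℕ) : ℝ) = |(b : ℝ)| := by rw [Nat.cast_natAbs, Int.cast_abs]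
    have h5 : (0 : ℝ) ≤ a.natAbs := Nat.cast_nonneg _
    rw [hK, ← h4]; linarith
  have hax : (1 : ℝ) ≤ a := by exact_mod_cast ha
  have hS2 : (2 * a + |b|) * (x : ℤ) < (s : ℤ) * s := by
    have h4 : (2 * (a : ℝ) + |(b : ℝ)|) * x < (s : ℝ) * s := by
      have h5 : (2 * (a : ℝ) + |(b : ℝ)|) * x < (4 * K ^ 2 + 4) * x := by
        apply mul_lt_mul_of_pos_right _ hx0'
        nlinarith
      have h6 : (4 * K ^ 2 + 4) * (x : ℝ) ≤ (x : ℝ) ^ (1 / 3 : ℝ) * x := by gcongr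
      nlinarith
    have h7 : (((2 * a + |b|) * (x : ℤ) : ℤ) : ℝ) < (((s : ℤ) * s : ℤ) : ℝ) := by push_cast; exact h4
    exact_mod_cast h7
  have haS : a < (s : ℤ) := by
    have h4 : (a : ℝ) < s := by
      have h5 : (x : ℝ) ^ (1 / 3 : ℝ) ≤ s := le_trans (Real.rpow_le_rpow_of_exponent_le hx1' (by linarith)) hs
      nlinarith
    exact_mod_cast h4
  have hX3 : x ^ 2 < (s + 1) ^ 3 := by
    have h4 : (x : ℝ) ^ 2 < ((s : ℝ) + 1) ^ 3 := by
      have h5 : (1 : ℝ) ≤ (x : ℝ) ^ (3 * ε) := Real.one_le_rpow hx1' (by positivity)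
      have h6 : (x : ℝ) ^ 2 ≤ (s : ℝ) ^ 3 := by nlinarith [sq_nonneg (x : ℝ)]
      have h7 : (s : ℝ) ^ 3 < ((s : ℝ) + 1) ^ 3 := pow_lt_pow_left₀ (by linarith) hs0r.le (by norm_num)
      linarith
    exact_mod_cast h4
  have hN3 : ∀ c ∈ Icc 1 C, ∀ n ∈ Ioc x1 x, Fn a b n + c < (s + 1) ^ 3 := by
    intro c hc n hn
    rw [mem_Icc] at hc
    rw [mem_Ioc] at hn
    have h4 := Fn_le (x := x) ha (hbx1.trans hn.1.le) hn.2
    have h5 : ((Fn a b n + c : ℕ) : ℝ) < ((s : ℝ) + 1) ^ 3 := by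
      have h6 : ((Fn a b n + c : ℕ) : ℝ) ≤ K * (x : ℝ) ^ 2 := by
        have h7 : ((Fn a b n : ℕ) : ℝ) ≤ ((a.natAbs : ℝ) + b.natAbs) * (x : ℝ) ^ 2 := by exact_mod_cast h4
        have h8 : (c : ℝ) ≤ x := by exact_mod_cast hc.2.trans hCx
        have h9 : (x : ℝ) ≤ (x : ℝ) ^ 2 := by nlinarith
        push_cast
        rw [hK]
        nlinarith
      have h10 : K ≤ (x : ℝ) ^ (3 * ε) := by nlinarith
      have h11 : K * (x : ℝ) ^ 2 ≤ (x : ℝ) ^ (3 * ε) * (x : ℝ) ^ 2 := by gcongr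
      have h7 : (s : ℝ) ^ 3 < ((s : ℝ) + 1) ^ 3 := pow_lt_pow_left₀ (by linarith) hs0r.le (by norm_num)
      linarith
    exact_mod_cast h5
  have hdisc : ∀ c ∈ Icc 1 C, |b ^ 2 - 4 * a * (c : ℤ)| < (s : ℤ) * s := by
    intro c hc
    rw [mem_Icc] at hc
    have hcx : (c : ℝ) ≤ x := by exact_mod_cast hc.2.trans hCx
    have hc0 : (0 : ℝ) ≤ c := Nat.cast_nonneg _
    have h4 : |(b : ℝ) ^ 2 - 4 * a * c| < (s : ℝ) * s := by
      have h5 : |(b : ℝ) ^ 2 - 4 * a * c| ≤ K ^ 2 + 4 * K * x := by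
        have h6 : (b : ℝ) ^ 2 ≤ K ^ 2 := by
          rw [← sq_abs]; exact pow_le_pow_left₀ (abs_nonneg _) hbK 2
        have h7 : 4 * (a : ℝ) * c ≤ 4 * K * x := by
          have : (a : ℝ) * c ≤ K * x := mul_le_mul haK hcx hc0 (by linarith)
          linarith
        have h8 : 0 ≤ 4 * (a : ℝ) * c := by positivity
        have h9 : 0 ≤ (b : ℝ) ^ 2 := sq_nonneg _
        have h10 : 0 ≤ K ^ 2 := sq_nonneg _
        have h11 : 0 ≤ 4 * K * (x : ℝ) := by positivity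
        rw [abs_le]; constructor <;> linarith
      have h6 : K ^ 2 + 4 * K * x < (4 * K ^ 2 + 4) * x := by nlinarith [sq_nonneg (K - 2)]
      have h7 : (4 * K ^ 2 + 4) * (x : ℝ) ≤ (x : ℝ) ^ (1 / 3 : ℝ) * x := by gcongr
      nlinarith
    have h7 : ((|b ^ 2 - 4 * a * (c : ℤ)| : ℤ) : ℝ) < (((s : ℤ) * s : ℤ) : ℝ) := by push_cast; exact h4
    exact_mod_cast h7
  -- the two applications of the estimate of type II
  have hΛ := Lm_le (s := s) (t := t) (x := x) (by omega) htx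
  rw [← hL] at hΛ
  have hΛ0 := Lm_nonneg s t
  have hb1 : ∀ k, |b1 f s t (x ^ 2) k| ≤ 2 * Real.log x := by
    intro k
    rw [← hL]
    unfold b1
    split_ifs with h
    · exact (be_abs hf h.1 (lt_of_le_of_lt h.2 hX3)).trans (by linarith)
    · rw [abs_zero]; positivity
  have hb2 : ∀ k, |b2 s t (x ^ 2) k| ≤ 2 * Real.log x := by
    intro k
    rw [← hL]
    unfold b2
    split_ifs with h
    · have h4 : (om s t k : ℝ) ≤ 2 := by exact_mod_cast om_le_two h.1 (lt_of_le_of_lt h.2 hX3)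
      have h5 : (0 : ℝ) ≤ om s t k := Nat.cast_nonneg _
      rw [abs_le]; constructor <;> linarith
    · rw [abs_zero]; positivity
  have hcut : ∀ i v : ℕ, 2 ^ (i + 1) ≤ x ^ 2 → v ≤ 2 ^ (i + 1) → ∀ k ∈ Ioc (2 ^ i) v, 0 < k ∧ k ≤ x ^ 2 := by
    intro i v h4 h5 k hk
    rw [mem_Ioc] at hk
    constructor <;> omega
  obtain ⟨k1, k2⟩ := h0 x g0 x1 C s t (b1 f s t (x ^ 2)) hx1 hR hC1 hC2 hCx p12 ht hb1 (by
    intro i v q r hi1 hi2 hv1 hv2 hq hqE
    have h4 := h1 x g1 s t (2 ^ i) v q r p12 ht hi1 hv1 hq hqE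
    have h5 : ∑ k ∈ (Ioc (2 ^ i) v).filter (fun k => k ≡ r [MOD q]), b1 f s t (x ^ 2) k =
        ∑ k ∈ (Ioc (2 ^ i) v).filter (fun k => k ≡ r [MOD q]), be f s t k := by
      refine sum_congr rfl fun k hk => ?_
      unfold b1
      rw [if_pos (hcut i v hi2 hv2 k (mem_filter.1 hk).1)]
    rw [h5]; exact h4)
  obtain ⟨_, k3⟩ := h0 x g0 x1 C s t (b2 s t (x ^ 2)) hx1 hR hC1 hC2 hCx p12 ht hb2 (by
    intro i v q r hi1 hi2 hv1 hv2 hq hqE
    rw [← hL] at hqE ⊢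
    have h5 : ∑ k ∈ (Ioc (2 ^ i) v).filter (fun k => k ≡ r [MOD q]), b2 s t (x ^ 2) k =
        ∑ k ∈ (Ioc (2 ^ i) v).filter (fun k => k ≡ r [MOD q]), ((om s t k : ℝ) - Lm s t) := by
      refine sum_congr rfl fun k hk => ?_
      unfold b2
      rw [if_pos (hcut i v hi2 hv2 k (mem_filter.1 hk).1)]
    rw [h5]
    have hqs : q ≤ s := by
      have h6 : (q : ℝ) ≤ s := by
        rw [one_mul] at f6
        exact (hqE.trans f6).trans p12
      exact_mod_cast h6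
    refine (om_ap s t (2 ^ i) v q r hqs hv1 hq).trans ?_
    rw [le_div_iff₀ (by positivity)]
    have h7 : L ^ U ≤ L ^ (E + U) := pow_le_pow_right₀ hL1 (by omega)
    have h8 : (x : ℝ) ≤ v := by exact_mod_cast hi1.trans hv1
    have h9 : (x : ℝ) ^ (1 - ε) * (x : ℝ) ^ ε = x := by
      rw [← Real.rpow_add hx0']
      calc (x : ℝ) ^ (1 - ε + ε) = (x : ℝ) ^ (1 : ℝ) := by congr 1; ring
        _ = x := Real.rpow_one _
    have h10 : (0 : ℝ) ≤ t := Nat.cast_nonneg _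
    calc 4 * (t : ℝ) * L ^ U = t * (4 * L ^ U) := by ring
      _ ≤ (x : ℝ) ^ (1 - ε) * (x : ℝ) ^ ε := by
          apply mul_le_mul ht (by linarith) (by positivity) (by positivity)
      _ = x := h9
      _ ≤ v := h8)
  -- the mean value of rho
  have k4 : ∑ c ∈ Icc 1 C, E3 a b x1 x s t c ≤ C * x / L ^ A' := by
    have hxx1 : (0 : ℝ) ≤ (x : ℝ) - x1 := by
      have : (x1 : ℝ) ≤ x := by exact_mod_cast hx1.le
      linarith
    have h4 := h2 x g2 C s s t (fun m => if m ∈ PP s t then ((x : ℝ) - x1) / m else 0) hC2 hCx p10 htx (by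
      intro m hm
      by_cases hmp : m ∈ PP s t
      · rw [if_pos hmp]
        have hmm := mem_PP.1 hmp
        have hrg : rg s m = 1 := by
          unfold rg
          rw [if_pos]
          refine ⟨hmm.2.ne_zero, fun q hq hqp => ?_⟩
          rw [(Nat.prime_dvd_prime_iff_eq hq hmm.2).1 hqp]
          exact hmm.1.1
        rw [hrg, one_mul, abs_of_nonneg (by positivity)]
        have hm0 : (0 : ℝ) < m := by exact_mod_cast hmm.2.pos
        apply div_le_div_of_nonneg_right _ hm0.le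
        rw [← hL]
        have h5 : (1 : ℝ) ≤ L ^ A' := one_le_pow₀ hL1
        have h6 : (0 : ℝ) ≤ x1 := Nat.cast_nonneg _
        nlinarith
      · rw [if_neg hmp, abs_zero]
        have : 0 ≤ rg s m := by unfold rg; split_ifs <;> norm_num
        have h7 : (0 : ℝ) ≤ x * Real.log x ^ A' / m := by rw [← hL]; positivity
        exact mul_nonneg this h7) (by
      intro m _ hm0
      by_cases hmp : m ∈ PP s t
      · exact (mem_PP.1 hmp).2.squarefree
      · simp [hmp] at hm0)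
    rw [← hL] at h4
    refine le_trans (le_of_eq ?_) h4
    refine sum_congr rfl fun c _ => ?_
    unfold E3
    congr 1
    have h5 : ∑ m ∈ Ioc s t, (if m ∈ PP s t then ((x : ℝ) - x1) / m else 0) * ((rho a b (c : ℕ) m : ℝ) - 1) =
        ∑ m ∈ (Ioc s t).filter (fun m => m ∈ PP s t), ((x : ℝ) - x1) / m * ((rho a b (c : ℕ) m : ℝ) - 1) := by
      rw [sum_filter]
      refine sum_congr rfl fun m _ => ?_
      split_ifs <;> simp
    rw [h5]
    refine sum_congr ?_ fun _ _ => rfl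
    ext m
    rw [mem_filter]
    constructor
    · intro h
      exact ⟨mem_Ioc.2 (mem_PP.1 h).1, h⟩
    · exact fun h => h.2
  rw [← hL] at k2 k3
  -- the exceptional set
  obtain ⟨T, hT⟩ : ∃ T : ℝ, T = x / L ^ (A + 2) := ⟨_, rfl⟩
  have hT0 : 0 < T := by rw [hT]; positivity
  have hE1n : ∀ c, 0 ≤ E1 f a b x1 x s t c := fun c => sum_nonneg fun _ _ => abs_nonneg _
  have hE2n : ∀ c, 0 ≤ E2 a b x1 x s t c := fun c => sum_nonneg fun _ _ => abs_nonneg _
  have hE3n : ∀ c, 0 ≤ E3 a b x1 x s t c := fun c => abs_nonneg _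
  have m1 := card_markov hE1n hT0 k2
  have m2 := card_markov hE2n hT0 k3
  have m3 := card_markov hE3n hT0 k4
  have hMT : C * x / L ^ A' / T = C / L ^ (A + 1) := by
    rw [hT, hA']
    have : L ^ (2 * A + 3) = L ^ (A + 1) * L ^ (A + 2) := by rw [← pow_add]; congr 1; ring
    rw [this]; field_simp
  rw [hMT] at m1 m2 m3
  set X1 := (Icc 1 C).filter (fun c => T < E1 f a b x1 x s t c) with hX1
  set X2 := (Icc 1 C).filter (fun c => T < E2 a b x1 x s t c) with hX2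
  set X3 := (Icc 1 C).filter (fun c => T < E3 a b x1 x s t c) with hX3s
  set X4 := (Icc 1 C).filter (fun c : ℕ => b ^ 2 - 4 * a * (c : ℤ) = 0) with hX4
  have m4 : #X4 ≤ 1 := by
    rw [card_le_one]
    intro c1 hc1 c2 hc2
    rw [hX4, mem_filter] at hc1 hc2
    have h4 : 4 * a * (c1 : ℤ) = 4 * a * c2 := by linarith [hc1.2, hc2.2]
    have h5 : (c1 : ℤ) = c2 := mul_left_cancel₀ (by positivity) h4
    exact_mod_cast h5
  refine ⟨((X1 ∪ X2) ∪ X3) ∪ X4, ?_, ?_, ?_⟩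
  · intro c hc
    simp only [mem_union, hX1, hX2, hX3s, hX4, mem_filter] at hc
    rcases hc with ((h | h) | h) | h <;> exact h.1
  · have h4 : #(((X1 ∪ X2) ∪ X3) ∪ X4) ≤ #X1 + #X2 + #X3 + #X4 := by
      refine (card_union_le _ _).trans ?_
      refine Nat.add_le_add_right ((card_union_le _ _).trans ?_) _
      exact Nat.add_le_add_right (card_union_le _ _) _
    have h5 : (#(((X1 ∪ X2) ∪ X3) ∪ X4) : ℝ) ≤ #X1 + #X2 + #X3 + #X4 := by exact_mod_cast h4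
    have h6 : (#X4 : ℝ) ≤ 1 := by exact_mod_cast m4
    have h7 : (C : ℝ) / L ^ (A + 1) ≤ (1 / 100) * (C / L ^ A) := by
      rw [pow_succ]
      have : (C : ℝ) / (L ^ A * L) = (1 / L) * (C / L ^ A) := by field_simp
      rw [this]
      apply mul_le_mul_of_nonneg_right _ (by positivity)
      apply one_div_le_one_div_of_le (by norm_num) f1
    have h8 : 1 ≤ (1 / 100) * ((C : ℝ) / L ^ A) := by
      have h9 : 100 * L ^ A ≤ C := by
        have h10 : L ^ A ≤ L ^ (A + 2) := pow_le_pow_right₀ hL1 (by omega)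
        have h11 : (x : ℝ) ^ ε ≤ (x : ℝ) ^ (1 / 2 + ε) := Real.rpow_le_rpow_of_exponent_le hx1' (by linarith)
        linarith
      have h10 : 0 < L ^ A := by positivity
      have h11 : (1 / 100) * ((C : ℝ) / L ^ A) = C / (100 * L ^ A) := by field_simp
      rw [h11, le_div_iff₀ (by positivity)]
      linarith
    have h9 : 0 ≤ (C : ℝ) / L ^ A := by positivity
    linarith
  · intro c hc hcE
    simp only [mem_union, not_or] at hcE
    obtain ⟨⟨⟨q1, q2⟩, q3⟩, q4⟩ := hcE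
    have q1' : E1 f a b x1 x s t c ≤ T := by
      by_contra hcon
      push Not at hcon
      exact q1 (mem_filter.2 ⟨hc, hcon⟩)
    have q2' : E2 a b x1 x s t c ≤ T := by
      by_contra hcon
      push Not at hcon
      exact q2 (mem_filter.2 ⟨hc, hcon⟩)
    have q3' : E3 a b x1 x s t c ≤ T := by
      by_contra hcon
      push Not at hcon
      exact q3 (mem_filter.2 ⟨hc, hcon⟩)
    have q4' : b ^ 2 - 4 * a * (c : ℤ) ≠ 0 := fun h => q4 (mem_filter.2 ⟨hc, h⟩)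
    have hc0 : 0 < c := by
      have := (mem_Icc.1 hc).1
      omega
    have d := det_part hf ha hx1.le hbx1 hc0 hS2 haS q4' (hdisc c hc) hX3 (hN3 c hc) (k1 c hc)
    have hxe : (x : ℝ) ^ (1 - ε) * (x : ℝ) ^ ε = x := by
      rw [← Real.rpow_add hx0']
      calc (x : ℝ) ^ (1 - ε + ε) = (x : ℝ) ^ (1 : ℝ) := by congr 1; ring
        _ = x := Real.rpow_one _
    have ht' : (t : ℝ) ≤ T / 100 := by
      rw [hT, div_div, le_div_iff₀ (by positivity)]
      calc (t : ℝ) * (L ^ (A + 2) * 100) = t * (100 * L ^ (A + 2)) := by ring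
        _ ≤ (x : ℝ) ^ (1 - ε) * (x : ℝ) ^ ε := mul_le_mul ht f4 (by positivity) (by positivity)
        _ = x := hxe
    have hsx : (x : ℝ) / s ≤ T / 100 := by
      rw [hT, div_div]
      apply div_le_div_of_nonneg_left hx0'.le (by positivity)
      have h4 : (x : ℝ) ^ ε ≤ s := le_trans (Real.rpow_le_rpow_of_exponent_le hx1' (by linarith)) hs
      linarith
    have h2T : 2 ≤ T / 10 := by
      rw [hT, div_div, le_div_iff₀ (by positivity)]
      have h4 : (x : ℝ) ^ ε ≤ x := by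
        calc (x : ℝ) ^ ε ≤ (x : ℝ) ^ (1 : ℝ) := Real.rpow_le_rpow_of_exponent_le hx1' (by linarith)
          _ = x := Real.rpow_one _
      linarith
    have hbd : 3 * (t + (2 * (x : ℝ) / s + 2)) ≤ T := by
      have : 2 * (x : ℝ) / s = 2 * (x / s) := by ring
      rw [this]
      linarith
    have hTA : L * L * T = x / L ^ A := by
      rw [hT, pow_add]; field_simp
    have hTp : 4 * L * T ≤ L * L * T := by
      have : 4 * L ≤ L * L := by nlinarith
      exact mul_le_mul_of_nonneg_right this hT0.le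
    constructor
    · refine d.1.trans ?_
      rw [← hTA]
      nlinarith
    · refine d.2.trans ?_
      rw [← hTA]
      have h4 : (1 + Lm s t) * (E3 a b x1 x s t c + 2 * t) ≤ (2 + L) * (T + 2 * (T / 100)) := by
        apply mul_le_mul (by linarith) (by linarith) _ (by linarith)
        have : (0 : ℝ) ≤ t := Nat.cast_nonneg _
        linarith [hE3n c]
      nlinarith

end Pool.Agent.N791.C2
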