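import Mathlib
import Pool.Agent.N791.C2.One

/-!
All subintervals at once (helper791).
-/

set_option autoImplicit false

namespace Pool.Agent.N791.C2

open Finset Filter Topology
open Pool.Agent.N792 (fv rho Fn ev_log_pow)
open Pool.Agent.N792.XEa (grid_x)

/-- changing the lower limit -/
lemma refine_u (G : ℕ → ℝ) (M : ℝ) (hG : ∀ n, |G n| ≤ M) {g u x : ℕ} (h1 : g ≤ u) (h2 : u ≤ x) :
    |∑ n ∈ Ioc u x, G n - ∑ n ∈ Ioc g x, G n| ≤ M * ((u : ℝ) - g) := by
  have h3 : ∑ n ∈ Ioc g x, G n = ∑ n ∈ Ioc g u, G n + ∑ n ∈ Ioc u x, G n := (sum_Ioc_consecutive _ h1 h2).symm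
  rw [h3]
  have h4 : ∑ n ∈ Ioc u x, G n - (∑ n ∈ Ioc g u, G n + ∑ n ∈ Ioc u x, G n) = - ∑ n ∈ Ioc g u, G n := by ring
  rw [h4, abs_neg]
  refine (abs_sum_le_sum_abs _ _).trans ?_
  calc ∑ n ∈ Ioc g u, |G n| ≤ ∑ n ∈ Ioc g u, M := sum_le_sum fun n _ => hG n
    _ = M * ((u : ℝ) - g) := by
      rw [sum_const, Nat.card_Ioc, nsmul_eq_mul, Nat.cast_sub h1, mul_comm]

theorem all_cut {f : ℕ → ℝ} (hf : Cls f) (a : ℤ) (ha : 0 < a) (b : ℤ) (ε : ℝ) (hε : 0 < ε) (hε1 : ε ≤ 1 / 100) (R A : ℕ)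
    (hR0 : 1 ≤ R) :
    ∃ x0 : ℕ, ∀ x : ℕ, x0 ≤ x → ∀ C s t : ℕ,
    (x : ℝ) ^ (3 / 2 + ε) ≤ C * s → (x : ℝ) ^ (1 / 2 + ε) ≤ C → C ≤ x → (x : ℝ) ^ (2 / 3 + ε) ≤ s →
    (t : ℝ) ≤ (x : ℝ) ^ (1 - ε) →
    ∃ Ex ⊆ Icc 1 C, (#Ex : ℝ) ≤ C / Real.log x ^ A ∧ ∀ c ∈ Icc 1 C, c ∉ Ex → ∀ u v : ℕ, x ≤ R * u → u ≤ v → v ≤ x →
      |∑ n ∈ (Ioc u v).filter (fun n => 1 ≤ om s t (Fn a b n + c)), f (Fn a b n + c)| ≤ x / Real.log x ^ A ∧
      |(#((Ioc u v).filter (fun n => 1 ≤ om s t (Fn a b n + c))) : ℝ) - ((v : ℝ) - u) * (Lm s t - Lm s t ^ 2 / 2)| ≤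
        x / Real.log x ^ A := by
  classical
  obtain ⟨A', hA'⟩ : ∃ A' : ℕ, A' = 2 * A + 6 := ⟨_, rfl⟩
  obtain ⟨n0, h0⟩ := one_cut hf a ha b ε hε hε1 (4 * R) A'
  have e1 : ∀ᶠ x : ℕ in atTop, (8 * (R : ℝ) + 100) ≤ Real.log x := Pool.Agent.N792.Shp.log_ge _
  have e2 := ev_log_pow (100 * (R + 1)) (A + 4) (δ := 1) (by norm_num)
  obtain ⟨n1, h1⟩ := eventually_atTop.1 (e1.and e2)
  refine ⟨max (max n0 n1) 3, fun x hx C s t hC1 hC2 hCx hs ht => ?_⟩
  have g0 : n0 ≤ x := ((le_max_left _ _).trans (le_max_left _ _)).trans hx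
  have g1 : n1 ≤ x := ((le_max_right _ _).trans (le_max_left _ _)).trans hx
  have hx3 : 3 ≤ x := (le_max_right _ _).trans hx
  obtain ⟨f1, f2⟩ := h1 x g1
  rw [Real.rpow_one] at f2
  obtain ⟨L, hL⟩ : ∃ L : ℝ, L = Real.log x := ⟨_, rfl⟩
  rw [← hL] at f1 f2 ⊢
  have hRr : (1 : ℝ) ≤ R := by exact_mod_cast hR0
  have hL100 : 100 ≤ L := by linarith
  have hL1 : 1 ≤ L := by linarith
  have hL0 : 0 < L := by linarith
  have hxr : (3 : ℝ) ≤ x := by exact_mod_cast hx3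
  have hx0' : (0 : ℝ) < x := by linarith
  have hx1' : (1 : ℝ) ≤ x := by linarith
  have hC0 : (0 : ℝ) ≤ C := Nat.cast_nonneg _
  obtain ⟨J, hJ⟩ : ∃ J : ℕ, J = ⌈L ^ (A + 4)⌉₊ := ⟨_, rfl⟩
  have hLA : 1 ≤ L ^ (A + 4) := one_le_pow₀ hL1
  have hJ1 : L ^ (A + 4) ≤ J := by rw [hJ]; exact Nat.le_ceil _
  have hJ2 : (J : ℝ) ≤ 2 * L ^ (A + 4) := by
    have := Nat.ceil_lt_add_one (show (0 : ℝ) ≤ L ^ (A + 4) by positivity)
    rw [← hJ] at this
    linarith
  have hJ0 : 0 < J := by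
    have : (0 : ℝ) < J := by linarith
    exact_mod_cast this
  have hJ0r : (0 : ℝ) < J := by exact_mod_cast hJ0
  -- the grid
  have hg : ∀ j : ℕ, ∃ Ex ⊆ Icc 1 C, (#Ex : ℝ) ≤ C / L ^ A' ∧ (j * x / J < x → x ≤ 4 * R * (j * x / J) →
      ∀ c ∈ Icc 1 C, c ∉ Ex →
      |∑ n ∈ (Ioc (j * x / J) x).filter (fun n => 1 ≤ om s t (Fn a b n + c)), f (Fn a b n + c)| ≤ x / L ^ A' ∧
      |(#((Ioc (j * x / J) x).filter (fun n => 1 ≤ om s t (Fn a b n + c))) : ℝ) -
        ((x : ℝ) - (j * x / J : ℕ)) * (Lm s t - Lm s t ^ 2 / 2)| ≤ x / L ^ A') := by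
    intro j
    by_cases h : j * x / J < x ∧ x ≤ 4 * R * (j * x / J)
    · obtain ⟨Ex, q1, q2, q3⟩ := h0 x g0 (j * x / J) C s t h.1 h.2 hC1 hC2 hCx hs ht
      rw [← hL] at q2 q3
      exact ⟨Ex, q1, q2, fun _ _ => q3⟩
    · refine ⟨∅, empty_subset _, ?_, fun h1 h2 => absurd ⟨h1, h2⟩ h⟩
      rw [card_empty, Nat.cast_zero]; positivity
  choose Ex hE1 hE2 hE3 using hg
  refine ⟨(range (J + 1)).biUnion Ex, ?_, ?_, ?_⟩
  · intro c hc
    rw [mem_biUnion] at hc
    obtain ⟨j, _, hj⟩ := hc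
    exact hE1 j hj
  · have h2 : (#((range (J + 1)).biUnion Ex) : ℝ) ≤ ∑ j ∈ range (J + 1), (#(Ex j) : ℝ) := by
      exact_mod_cast card_biUnion_le
    refine h2.trans ?_
    calc ∑ j ∈ range (J + 1), (#(Ex j) : ℝ) ≤ ∑ j ∈ range (J + 1), C / L ^ A' := sum_le_sum fun j _ => hE2 j
      _ = (J + 1) * (C / L ^ A') := by rw [sum_const, card_range, nsmul_eq_mul]; push_cast; ring
      _ ≤ (3 * L ^ (A + 4)) * (C / L ^ A') := by
          apply mul_le_mul_of_nonneg_right _ (by positivity)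
          linarith
      _ = (3 / L ^ 2) * (C / L ^ A) := by
          rw [hA']
          have : L ^ (2 * A + 6) = L ^ (A + 4) * (L ^ 2 * L ^ A) := by rw [← pow_add, ← pow_add]; congr 1; ring
          rw [this]; field_simp
      _ ≤ 1 * (C / L ^ A) := by
          apply mul_le_mul_of_nonneg_right _ (by positivity)
          rw [div_le_one (by positivity)]; nlinarith
      _ = C / L ^ A := one_mul _
  · intro c hc hcE
    have hcE' : ∀ j ∈ range (J + 1), c ∉ Ex j := by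
      intro j hj h
      exact hcE (mem_biUnion.2 ⟨j, hj, h⟩)
    have htx : t ≤ x := by
      have : (t : ℝ) ≤ x := ht.trans (by
        calc (x : ℝ) ^ (1 - ε) ≤ (x : ℝ) ^ (1 : ℝ) := Real.rpow_le_rpow_of_exponent_le hx1' (by linarith)
          _ = x := Real.rpow_one _)
      exact_mod_cast this
    have hΛ := Lm_le (s := s) (t := t) (x := x) (by omega) htx
    rw [← hL] at hΛ
    have hΛ0 := Lm_nonneg s t
    obtain ⟨μ0, hμ0⟩ : ∃ μ0 : ℝ, μ0 = Lm s t - Lm s t ^ 2 / 2 := ⟨_, rfl⟩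
    have hμ1 : |μ0| ≤ L ^ 2 := by
      rw [hμ0, abs_le]
      constructor <;> nlinarith
    set G1 : ℕ → ℝ := fun n => if 1 ≤ om s t (Fn a b n + c) then f (Fn a b n + c) else 0 with hG1
    set G2 : ℕ → ℝ := fun n => (if 1 ≤ om s t (Fn a b n + c) then 1 else 0) - μ0 with hG2
    have b1 : ∀ n, |G1 n| ≤ 2 * L ^ 2 := by
      intro n
      have : 1 ≤ 2 * L ^ 2 := by nlinarith
      simp only [hG1]
      split_ifs
      · exact (hf.bd _).trans this
      · rw [abs_zero]; positivity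
    have b2 : ∀ n, |G2 n| ≤ 2 * L ^ 2 := by
      intro n
      have h2 : |(if 1 ≤ om s t (Fn a b n + c) then (1 : ℝ) else 0)| ≤ L ^ 2 := by
        split_ifs
        · rw [abs_one]; nlinarith
        · rw [abs_zero]; positivity
      simp only [hG2]
      refine (abs_sub _ _).trans (by linarith)
    have s1 : ∀ g y : ℕ, ∑ n ∈ (Ioc g y).filter (fun n => 1 ≤ om s t (Fn a b n + c)), f (Fn a b n + c) =
        ∑ n ∈ Ioc g y, G1 n := by
      intro g y
      rw [sum_filter]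
    have s2 : ∀ g y : ℕ, g ≤ y → (#((Ioc g y).filter (fun n => 1 ≤ om s t (Fn a b n + c))) : ℝ) - ((y : ℝ) - g) * μ0 =
        ∑ n ∈ Ioc g y, G2 n := by
      intro g y hgy
      simp only [hG2]
      rw [sum_sub_distrib, sum_const, Nat.card_Ioc, nsmul_eq_mul, Nat.cast_sub hgy, ← sum_filter, sum_const, nsmul_eq_mul,
        mul_one]
    -- the sums over (u, x]
    have key : ∀ u : ℕ, x ≤ R * u → u ≤ x → |∑ n ∈ Ioc u x, G1 n| ≤ x / (2 * L ^ A) ∧ |∑ n ∈ Ioc u x, G2 n| ≤ x / (2 * L ^ A) := by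
      intro u hu hux
      have hLAp : 0 < L ^ A := by positivity
      have hlast : x / L ^ A' + 2 * L ^ 2 * (x / J + 1) ≤ x / (2 * L ^ A) := by
        have c1 : (x : ℝ) / L ^ A' ≤ (1 / 8) * (x / L ^ A) := by
          rw [hA']
          have : L ^ (2 * A + 6) = L ^ A * L ^ (A + 6) := by rw [← pow_add]; congr 1; ring
          rw [this]
          have e3 : (x : ℝ) / (L ^ A * L ^ (A + 6)) = (1 / L ^ (A + 6)) * (x / L ^ A) := by field_simp
          rw [e3]
          apply mul_le_mul_of_nonneg_right _ (by positivity)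
          apply one_div_le_one_div_of_le (by norm_num)
          have : L ^ 1 ≤ L ^ (A + 6) := pow_le_pow_right₀ hL1 (by omega)
          linarith [pow_one L]
        have c2 : 2 * L ^ 2 * ((x : ℝ) / J) ≤ (1 / 8) * (x / L ^ A) := by
          have e3 : (x : ℝ) / J ≤ x / L ^ (A + 4) := div_le_div_of_nonneg_left hx0'.le (by positivity) hJ1
          calc 2 * L ^ 2 * ((x : ℝ) / J) ≤ 2 * L ^ 2 * (x / L ^ (A + 4)) := by gcongr
            _ = (2 / L ^ 2) * (x / L ^ A) := by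
                have : L ^ (A + 4) = L ^ A * (L ^ 2 * L ^ 2) := by rw [← pow_add, ← pow_add]
                rw [this]; field_simp
            _ ≤ (1 / 8) * (x / L ^ A) := by
                apply mul_le_mul_of_nonneg_right _ (by positivity)
                rw [div_le_div_iff₀ (by positivity) (by norm_num)]
                nlinarith
        have c3 : 2 * L ^ 2 * 1 ≤ (1 / 8) * ((x : ℝ) / L ^ A) := by
          have e3 : 16 * (L ^ 2 * L ^ A) ≤ x := by
            have e4 : L ^ 2 * L ^ A ≤ L ^ (A + 4) := by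
              rw [← pow_add]; exact pow_le_pow_right₀ hL1 (by omega)
            nlinarith
          have e5 : (1 / 8) * ((x : ℝ) / L ^ A) = x / (8 * L ^ A) := by field_simp
          rw [e5, le_div_iff₀ (by positivity)]
          linarith
        have e6 : (x : ℝ) / (2 * L ^ A) = (1 / 2) * (x / L ^ A) := by field_simp
        rw [e6]
        have e7 : 0 ≤ (x : ℝ) / L ^ A := by positivity
        linarith
      obtain ⟨j, hj1, hj2, hj3⟩ := grid_x (x := x) (n := J) (u := u) (by omega) hJ0 hux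
      have hjd : (u : ℝ) - ((j * x / J : ℕ) : ℝ) ≤ x / J + 1 := hj3
      by_cases hlt : j * x / J < x
      · have hR4 : x ≤ 4 * R * (j * x / J) := by
          have h5 : (x : ℝ) ≤ R * u := by exact_mod_cast hu
          have h6 : (x : ℝ) / J ≤ x / (8 * R) := by
            apply div_le_div_of_nonneg_left hx0'.le (by positivity)
            have : L ^ 1 ≤ L ^ (A + 4) := pow_le_pow_right₀ hL1 (by omega)
            linarith [pow_one L]
          have h7 : (x : ℝ) / (8 * R) * (8 * R) = x := by field_simp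
          have h8 : (100 : ℝ) * (R + 1) ≤ x := by
            have : (1 : ℝ) * (100 * (R + 1)) ≤ L ^ (A + 4) * (100 * (R + 1)) := by
              apply mul_le_mul_of_nonneg_right hLA (by positivity)
            nlinarith
          have h9 : (x : ℝ) ≤ 4 * R * ((j * x / J : ℕ) : ℝ) := by nlinarith
          exact_mod_cast h9
        have h4 := hE3 j hlt hR4 c hc (hcE' j hj1)
        rw [s1] at h4
        have h4b := h4.2
        rw [← hμ0, s2 _ _ hlt.le] at h4b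
        have r1 := refine_u G1 _ b1 hj2 hux
        have r2 := refine_u G2 _ b2 hj2 hux
        have h5 : 2 * L ^ 2 * ((u : ℝ) - ((j * x / J : ℕ) : ℝ)) ≤ 2 * L ^ 2 * (x / J + 1) := by gcongr
        constructor
        · have := abs_sub_abs_le_abs_sub (∑ n ∈ Ioc u x, G1 n) (∑ n ∈ Ioc (j * x / J) x, G1 n)
          linarith [h4.1]
        · have := abs_sub_abs_le_abs_sub (∑ n ∈ Ioc u x, G2 n) (∑ n ∈ Ioc (j * x / J) x, G2 n)
          linarith
      · have hxu : x = u := by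
          have : j * x / J ≤ u := hj2
          omega
        rw [← hxu, Ioc_self, sum_empty, sum_empty, abs_zero]
        constructor <;> positivity
    intro u v hu huv hvx
    have k1 := key u hu (huv.trans hvx)
    have k2 := key v (hu.trans (Nat.mul_le_mul_left _ huv)) hvx
    rw [s1, ← hμ0, s2 u v huv]
    have t1 : ∑ n ∈ Ioc u v, G1 n = ∑ n ∈ Ioc u x, G1 n - ∑ n ∈ Ioc v x, G1 n := by
      rw [← sum_Ioc_consecutive G1 huv hvx]; ring
    have t2 : ∑ n ∈ Ioc u v, G2 n = ∑ n ∈ Ioc u x, G2 n - ∑ n ∈ Ioc v x, G2 n := by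
      rw [← sum_Ioc_consecutive G2 huv hvx]; ring
    have e6 : (x : ℝ) / (2 * L ^ A) + x / (2 * L ^ A) = x / L ^ A := by
      have : 0 < L ^ A := by positivity
      field_simp; ring
    rw [t1, t2]
    constructor
    · refine (abs_sub _ _).trans ?_
      linarith [k1.1, k2.1]
    · refine (abs_sub _ _).trans ?_
      linarith [k1.2, k2.2]

end Pool.Agent.N791.C2
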