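import Mathlib
import Pool.Agent.N791.C2.All

/-!
Arguments in a residue class (helper791).
-/

set_option autoImplicit false

namespace Pool.Agent.N791.C2

open Finset Filter Topology
open Pool.Agent.N792 (fv rho Fn ev_log_pow)

/-- the arguments in a class -/
lemma class_sum (G : ℕ → ℝ) {q r0 u v : ℕ} (hq : 0 < q) (hr : r0 < q) (hu : r0 ≤ u) (huv : u ≤ v) :
    ∑ n ∈ (Ioc u v).filter (fun n => n ≡ r0 [MOD q]), G n = ∑ m ∈ Ioc ((u - r0) / q) ((v - r0) / q), G (q * m + r0) := by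
  have h1 : (Ioc u v).filter (fun n => n ≡ r0 [MOD q]) = (Ioc ((u - r0) / q) ((v - r0) / q)).image (fun m => q * m + r0) := by
    ext n
    simp only [mem_filter, mem_Ioc, mem_image]
    constructor
    · rintro ⟨⟨h1, h2⟩, h3⟩
      have h4 : q * (n / q) + r0 = n := by
        unfold Nat.ModEq at h3
        rw [Nat.mod_eq_of_lt hr] at h3
        rw [← h3]; exact Nat.div_add_mod n q
      refine ⟨n / q, ⟨?_, ?_⟩, h4⟩
      · rw [Nat.div_lt_iff_lt_mul hq, mul_comm]; omega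
      · rw [Nat.le_div_iff_mul_le hq, mul_comm]; omega
    · rintro ⟨m, ⟨h1, h2⟩, rfl⟩
      rw [Nat.div_lt_iff_lt_mul hq, mul_comm] at h1
      rw [Nat.le_div_iff_mul_le hq, mul_comm] at h2
      refine ⟨⟨by omega, by omega⟩, ?_⟩
      unfold Nat.ModEq
      rw [Nat.mul_add_mod]
  rw [h1, sum_image]
  intro m1 _ m2 _ h
  have h2 : q * m1 = q * m2 := by
    have : q * m1 + r0 = q * m2 + r0 := h
    omega
  exact Nat.eq_of_mul_eq_mul_left hq h2

lemma fv_class (a b c : ℤ) (q r0 m : ℕ) :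
    fv a b c (q * m + r0) = fv (a * q ^ 2) (q * (2 * a * r0 + b)) (c + (a * r0 ^ 2 + b * r0)) m := by
  unfold fv
  push_cast
  ring

lemma div_close {q r0 u v : ℕ} (hq : 0 < q) (hu : r0 ≤ u) (huv : u ≤ v) :
    |((((v - r0) / q : ℕ) : ℝ) - (((u - r0) / q : ℕ) : ℝ)) - ((v : ℝ) - u) / q| ≤ 1 := by
  have hq0 : (0 : ℝ) < q := by exact_mod_cast hq
  have key : ∀ w : ℕ, r0 ≤ w → (((w - r0) / q : ℕ) : ℝ) ≤ ((w : ℝ) - r0) / q ∧ ((w : ℝ) - r0) / q < (((w - r0) / q : ℕ) : ℝ) + 1 := by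
    intro w hw
    constructor
    · have := @Nat.cast_div_le ℝ _ _ _ (w - r0) q
      rw [Nat.cast_sub hw] at this
      exact this
    · rw [div_lt_iff₀ hq0]
      have h3 : ((w - r0 : ℕ) : ℝ) < ((q * ((w - r0) / q + 1) : ℕ) : ℝ) := by exact_mod_cast Nat.lt_mul_div_succ (w - r0) hq
      rw [Nat.cast_sub hw] at h3
      push_cast at h3
      linarith
  have h1 := key v (hu.trans huv)
  have h2 := key u hu
  have h3 : ((v : ℝ) - u) / q = ((v : ℝ) - r0) / q - ((u : ℝ) - r0) / q := by ring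
  rw [h3, abs_le]
  constructor <;> linarith [h1.1, h1.2, h2.1, h2.2]

theorem prog {f : ℕ → ℝ} (hf : Cls f) (a : ℤ) (ha : 0 < a) (b : ℤ) (q r : ℕ) (hq : 1 ≤ q) (ε : ℝ) (hε : 0 < ε)
    (hε1 : ε ≤ 1 / 100) (R A : ℕ) (hR0 : 1 ≤ R) :
    ∃ x0 : ℕ, ∀ x : ℕ, x0 ≤ x → ∀ C s t : ℕ,
    (x : ℝ) ^ (3 / 2 + ε) ≤ C * s → (x : ℝ) ^ (1 / 2 + ε) ≤ C → C ≤ x → (x : ℝ) ^ (2 / 3 + ε) ≤ s →
    (t : ℝ) ≤ (x : ℝ) ^ (1 - ε) →
    ∃ Ex ⊆ Icc 1 C, (#Ex : ℝ) ≤ C / Real.log x ^ A ∧ ∀ c ∈ Icc 1 C, c ∉ Ex → ∀ u v : ℕ, x ≤ R * u → u ≤ v → v ≤ x →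
      (∀ n ∈ Ioc u v, 0 < fv a b c n) ∧
      |∑ n ∈ (Ioc u v).filter (fun n => n ≡ r [MOD q] ∧ 1 ≤ om s t (fv a b c n).natAbs), f (fv a b c n).natAbs| ≤
        x / Real.log x ^ A ∧
      |(#((Ioc u v).filter (fun n => n ≡ r [MOD q] ∧ 1 ≤ om s t (fv a b c n).natAbs)) : ℝ) -
        ((v : ℝ) - u) / q * (Lm s t - Lm s t ^ 2 / 2)| ≤ x / Real.log x ^ A := by
  classical
  obtain ⟨r0, hr0⟩ : ∃ r0 : ℕ, r0 = r % q := ⟨_, rfl⟩
  have hr0q : r0 < q := by rw [hr0]; exact Nat.mod_lt _ (by omega)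
  obtain ⟨κ, hκ⟩ : ∃ κ : ℤ, κ = a * (r0 : ℤ) ^ 2 + b * r0 := ⟨_, rfl⟩
  obtain ⟨k, hk⟩ : ∃ k : ℕ, k = κ.natAbs := ⟨_, rfl⟩
  have hqz : (0 : ℤ) < q := by exact_mod_cast hq
  obtain ⟨a', ha'⟩ : ∃ a' : ℤ, a' = a * (q : ℤ) ^ 2 := ⟨_, rfl⟩
  obtain ⟨b', hb'⟩ : ∃ b' : ℤ, b' = q * (2 * a * r0 + b) := ⟨_, rfl⟩
  have ha'0 : 0 < a' := by rw [ha']; positivity
  obtain ⟨n0, h0⟩ := all_cut hf a' ha'0 b' (ε / 2) (by positivity) (by linarith) (4 * R * q) (A + 1)
    (by have : 0 < R * q := Nat.mul_pos (by omega) (by omega)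
        nlinarith)
  have e1 : ∀ᶠ x : ℕ in atTop, (100 : ℝ) ≤ Real.log x := Pool.Agent.N792.Shp.log_ge _
  have e2 := ev_log_pow 4 0 (δ := ε / 2) (by positivity)
  have e3 := ev_log_pow (8 * k + 8) (A + 3) (δ := 1 / 2) (by norm_num)
  have e4 : ∀ᶠ x : ℕ in atTop, R * (4 * q * (b'.natAbs + 2) + 4 * q + 4 * k + 4 * b.natAbs + 4) ≤ x := eventually_ge_atTop _
  obtain ⟨n1, h1⟩ := eventually_atTop.1 (((e1.and e2).and e3).and e4)
  refine ⟨max (max n0 n1) 3, fun x hx C s t hC1 hC2 hCx hs ht => ?_⟩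
  have g0 : n0 ≤ x := ((le_max_left _ _).trans (le_max_left _ _)).trans hx
  have g1 : n1 ≤ x := ((le_max_right _ _).trans (le_max_left _ _)).trans hx
  have hx3 : 3 ≤ x := (le_max_right _ _).trans hx
  obtain ⟨⟨⟨f1, f2⟩, f3⟩, f4⟩ := h1 x g1
  rw [pow_zero, mul_one] at f2
  obtain ⟨L, hL⟩ : ∃ L : ℝ, L = Real.log x := ⟨_, rfl⟩
  rw [← hL] at f1 f3 ⊢
  have hL1 : 1 ≤ L := by linarith
  have hL0 : 0 < L := by linarith
  have hxr : (3 : ℝ) ≤ x := by exact_mod_cast hx3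
  have hx0' : (0 : ℝ) < x := by linarith
  have hx1' : (1 : ℝ) ≤ x := by linarith
  have hC0 : (0 : ℝ) ≤ C := Nat.cast_nonneg _
  have hk0 : (0 : ℝ) ≤ k := Nat.cast_nonneg _
  have hs0 : (0 : ℝ) ≤ s := Nat.cast_nonneg _
  have f4' : 4 * q * (b'.natAbs + 2) + 4 * q + 4 * k + 4 * b.natAbs + 4 ≤ x :=
    le_trans (Nat.le_mul_of_pos_left _ hR0) f4
  obtain ⟨X, hX⟩ : ∃ X : ℕ, X = x + k := ⟨_, rfl⟩
  have hkx : k ≤ x := by omega
  have hXx : (x : ℝ) ≤ X := by rw [hX]; push_cast; linarith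
  have hX2 : (X : ℝ) ≤ 2 * x := by
    have : (k : ℝ) ≤ x := by exact_mod_cast hkx
    rw [hX]; push_cast; linarith
  have hX0 : (0 : ℝ) < X := by linarith
  have hX1 : (1 : ℝ) ≤ X := by linarith
  -- powers
  have hpow : ∀ e : ℝ, 0 ≤ e → e ≤ 2 → (X : ℝ) ^ e ≤ (x : ℝ) ^ (e + ε / 2) := by
    intro e he0 he2
    calc (X : ℝ) ^ e ≤ (2 * x : ℝ) ^ e := Real.rpow_le_rpow hX0.le hX2 he0
      _ = (2 : ℝ) ^ e * (x : ℝ) ^ e := Real.mul_rpow (by norm_num) hx0'.le
      _ ≤ (x : ℝ) ^ (ε / 2) * (x : ℝ) ^ e := by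
          apply mul_le_mul_of_nonneg_right _ (by positivity)
          calc (2 : ℝ) ^ e ≤ (2 : ℝ) ^ (2 : ℝ) := Real.rpow_le_rpow_of_exponent_le (by norm_num) he2
            _ = 4 := by norm_num
            _ ≤ (x : ℝ) ^ (ε / 2) := f2
      _ = (x : ℝ) ^ (e + ε / 2) := by rw [← Real.rpow_add hx0']; congr 1; ring
  have w1 : (X : ℝ) ^ (3 / 2 + ε / 2) ≤ ((C + k : ℕ) : ℝ) * s := by
    have h2 := hpow (3 / 2 + ε / 2) (by positivity) (by linarith)
    have h3 : 3 / 2 + ε / 2 + ε / 2 = 3 / 2 + ε := by ring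
    rw [h3] at h2
    push_cast
    nlinarith
  have w2 : (X : ℝ) ^ (1 / 2 + ε / 2) ≤ ((C + k : ℕ) : ℝ) := by
    have h2 := hpow (1 / 2 + ε / 2) (by positivity) (by linarith)
    have h3 : 1 / 2 + ε / 2 + ε / 2 = 1 / 2 + ε := by ring
    rw [h3] at h2
    push_cast
    linarith
  have w3 : C + k ≤ X := by rw [hX]; omega
  have w4 : (X : ℝ) ^ (2 / 3 + ε / 2) ≤ s := by
    have h2 := hpow (2 / 3 + ε / 2) (by positivity) (by linarith)
    have h3 : 2 / 3 + ε / 2 + ε / 2 = 2 / 3 + ε := by ring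
    rw [h3] at h2
    linarith
  have w5 : (t : ℝ) ≤ (X : ℝ) ^ (1 - ε / 2) := by
    refine ht.trans ?_
    calc (x : ℝ) ^ (1 - ε) ≤ (x : ℝ) ^ (1 - ε / 2) := Real.rpow_le_rpow_of_exponent_le hx1' (by linarith)
      _ ≤ (X : ℝ) ^ (1 - ε / 2) := Real.rpow_le_rpow hx0'.le hXx (by linarith)
  obtain ⟨Ex0, q1, q2, q3⟩ := h0 X (by omega) (C + k) s t w1 w2 w3 w4 w5
  have hlog : L ≤ Real.log X := by rw [hL]; exact Real.log_le_log hx0' hXx
  have hLX : L ^ (A + 1) ≤ Real.log X ^ (A + 1) := pow_le_pow_left₀ hL0.le hlog _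
  have hLAp : 0 < L ^ A := by positivity
  refine ⟨(Icc 1 C).filter (fun c => c ≤ k ∨ ((c : ℤ) + κ).toNat ∈ Ex0), filter_subset _ _, ?_, ?_⟩
  · have h2 : (Icc 1 C).filter (fun c => c ≤ k ∨ ((c : ℤ) + κ).toNat ∈ Ex0) ⊆
        range (k + 1) ∪ (Icc 1 C).filter (fun c => k < c ∧ ((c : ℤ) + κ).toNat ∈ Ex0) := by
      intro c hc
      rw [mem_filter] at hc
      rw [mem_union, mem_range, mem_filter]
      by_cases h : c ≤ k
      · left; omega
      · right
        refine ⟨hc.1, by omega, ?_⟩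
        rcases hc.2 with h' | h'
        · exact absurd h' h
        · exact h'
    have h3 : #((Icc 1 C).filter (fun c => k < c ∧ ((c : ℤ) + κ).toNat ∈ Ex0)) ≤ #Ex0 := by
      apply card_le_card_of_injOn (fun c : ℕ => ((c : ℤ) + κ).toNat)
      · intro c hc
        rw [mem_coe, mem_filter] at hc
        exact hc.2.2
      · intro c hc d hd hcd
        rw [mem_coe, mem_filter] at hc hd
        simp only at hcd
        have hκk : -(k : ℤ) ≤ κ := by rw [hk, Int.natCast_natAbs]; exact neg_abs_le κ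
        have hc' : (k : ℤ) < c := by exact_mod_cast hc.2.1
        have hd' : (k : ℤ) < d := by exact_mod_cast hd.2.1
        omega
    have h4 : (#((Icc 1 C).filter (fun c => c ≤ k ∨ ((c : ℤ) + κ).toNat ∈ Ex0)) : ℝ) ≤ (k + 1) + #Ex0 := by
      have := (card_le_card h2).trans (card_union_le _ _)
      rw [card_range] at this
      have h5 := this.trans (Nat.add_le_add_left h3 _)
      exact_mod_cast h5
    have h5 : (#Ex0 : ℝ) ≤ (1 / 2) * (C / L ^ A) := by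
      refine q2.trans ?_
      have h6 : ((C + k : ℕ) : ℝ) ≤ 2 * C := by
        have : (k : ℝ) ≤ C := by
          have h7 : (8 * (k : ℝ) + 8) * 1 ≤ (8 * k + 8) * L ^ (A + 3) :=
            mul_le_mul_of_nonneg_left (one_le_pow₀ hL1) (by positivity)
          have h8 : (x : ℝ) ^ (1 / 2 : ℝ) ≤ (x : ℝ) ^ (1 / 2 + ε) := Real.rpow_le_rpow_of_exponent_le hx1' (by linarith)
          linarith
        push_cast; linarith
      calc ((C + k : ℕ) : ℝ) / Real.log X ^ (A + 1) ≤ (2 * C) / L ^ (A + 1) := by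
            apply div_le_div₀ (by positivity) h6 (by positivity) hLX
        _ = (2 / L) * (C / L ^ A) := by rw [pow_succ]; field_simp
        _ ≤ (1 / 2) * (C / L ^ A) := by
            apply mul_le_mul_of_nonneg_right _ (by positivity)
            rw [div_le_div_iff₀ hL0 (by norm_num)]; linarith
    have h6 : (k : ℝ) + 1 ≤ (1 / 2) * (C / L ^ A) := by
      have h7 : (8 * (k : ℝ) + 8) * L ^ A ≤ (8 * k + 8) * L ^ (A + 3) := by
        apply mul_le_mul_of_nonneg_left _ (by positivity)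
        exact pow_le_pow_right₀ hL1 (by omega)
      have h8 : (x : ℝ) ^ (1 / 2 : ℝ) ≤ (x : ℝ) ^ (1 / 2 + ε) := Real.rpow_le_rpow_of_exponent_le hx1' (by linarith)
      have h9 : (1 / 2) * ((C : ℝ) / L ^ A) = C / (2 * L ^ A) := by field_simp
      rw [h9, le_div_iff₀ (by positivity)]
      nlinarith
    linarith
  · intro c hc hcE u v hu huv hvx
    rw [mem_filter, not_and, not_or] at hcE
    obtain ⟨hck, hcE2⟩ := hcE hc
    push Not at hck
    have hc1 := mem_Icc.1 hc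
    obtain ⟨c', hc'⟩ : ∃ c' : ℕ, c' = ((c : ℤ) + κ).toNat := ⟨_, rfl⟩
    rw [← hc'] at hcE2
    have hκk : -(k : ℤ) ≤ κ ∧ κ ≤ k := by
      rw [hk, Int.natCast_natAbs]; exact ⟨neg_abs_le κ, le_abs_self κ⟩
    have hck' : (k : ℤ) < c := by exact_mod_cast hck
    have hcz : ((c' : ℕ) : ℤ) = c + κ := by rw [hc']; omega
    have hc'm : c' ∈ Icc 1 (C + k) := by
      rw [mem_Icc]; constructor <;> omega
    -- the range of u
    have hu4 : 4 * q * (b'.natAbs + 2) + 4 * q + 4 * k + 4 * b.natAbs + 4 ≤ u := by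
      have h2 := f4.trans hu
      exact Nat.le_of_mul_le_mul_left h2 (by omega)
    have hru : r0 ≤ u := by
      have : q ≤ 4 * q := by omega
      omega
    obtain ⟨u', hu'⟩ : ∃ u' : ℕ, u' = (u - r0) / q := ⟨_, rfl⟩
    obtain ⟨v', hv'⟩ : ∃ v' : ℕ, v' = (v - r0) / q := ⟨_, rfl⟩
    have huv' : u' ≤ v' := by rw [hu', hv']; exact Nat.div_le_div_right (by omega)
    have hvX : v' ≤ X := by
      rw [hv', hX]
      have := Nat.div_le_self (v - r0) q
      omega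
    have hqr : (1 : ℝ) ≤ q := by exact_mod_cast hq
    have hRr : (1 : ℝ) ≤ R := by exact_mod_cast hR0
    have hXR : X ≤ 4 * R * q * u' := by
      -- u ≤ q (u' + 1) + r0 ≤ q (u' + 2)
      have h2 : u - r0 < q * (u' + 1) := by rw [hu']; exact Nat.lt_mul_div_succ (u - r0) (by omega)
      have h3 : u ≤ q * (u' + 2) := by
        have : q * (u' + 2) = q * (u' + 1) + q := by ring
        omega
      have h4 : 4 * q * (b'.natAbs + 2) ≤ u := by omega
      have h4' : 4 * q ≤ u := by omega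
      have h5 : u ≤ 2 * (q * u') := by
        have h6 : q * (u' + 2) = q * u' + 2 * q := by ring
        omega
      have h7 : R * u ≤ R * (2 * (q * u')) := Nat.mul_le_mul_left _ h5
      have h8 : R * (2 * (q * u')) = 2 * R * q * u' := by ring
      have h9 : 4 * R * q * u' = 2 * (2 * R * q * u') := by ring
      rw [hX, h9]
      omega
    have hbu : b'.natAbs ≤ u' := by
      rw [hu', Nat.le_div_iff_mul_le (by omega)]
      have h2 : b'.natAbs * q ≤ 4 * q * (b'.natAbs + 2) := by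
        rw [mul_comm]; exact Nat.mul_le_mul (by omega) (by omega)
      omega
    have hposf : ∀ m ∈ Ioc u' v', fv a b c (q * m + r0) = ((Fn a' b' m + c' : ℕ) : ℤ) := by
      intro m hm
      rw [mem_Ioc] at hm
      rw [fv_class, ← hκ, ← hcz, ← ha', ← hb']
      exact Pool.Agent.N792.Mtm.fv_eq ha'0 (hbu.trans hm.1.le)
    obtain ⟨d1, d2⟩ := q3 c' hc'm hcE2 u' v' hXR huv' hvX
    have hmod : ∀ n : ℕ, n ≡ r [MOD q] ↔ n ≡ r0 [MOD q] := by
      intro n
      rw [hr0]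
      unfold Nat.ModEq
      rw [Nat.mod_mod]
    -- transfer of the sums
    have htr : ∀ g : ℕ → ℝ, ∑ n ∈ (Ioc u v).filter (fun n => n ≡ r [MOD q] ∧ 1 ≤ om s t (fv a b c n).natAbs), g (fv a b c n).natAbs =
        ∑ m ∈ (Ioc u' v').filter (fun m => 1 ≤ om s t (Fn a' b' m + c')), g (Fn a' b' m + c') := by
      intro g
      have h2 : (Ioc u v).filter (fun n => n ≡ r [MOD q] ∧ 1 ≤ om s t (fv a b c n).natAbs) =
          ((Ioc u v).filter (fun n => n ≡ r0 [MOD q])).filter (fun n => 1 ≤ om s t (fv a b c n).natAbs) := by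
        rw [filter_filter]
        refine filter_congr fun n _ => ?_
        rw [hmod n]
      rw [h2, sum_filter, class_sum _ (by omega) hr0q hru huv, ← hu', ← hv', sum_filter]
      refine sum_congr rfl fun m hm => ?_
      rw [hposf m hm, Int.natAbs_natCast]
    have hXL : (X : ℝ) / Real.log X ^ (A + 1) ≤ (1 / 2) * (x / L ^ A) := by
      calc (X : ℝ) / Real.log X ^ (A + 1) ≤ (2 * x) / L ^ (A + 1) := by
            apply div_le_div₀ (by positivity) hX2 (by positivity) hLX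
        _ = (2 / L) * (x / L ^ A) := by rw [pow_succ]; field_simp
        _ ≤ (1 / 2) * (x / L ^ A) := by
            apply mul_le_mul_of_nonneg_right _ (by positivity)
            rw [div_le_div_iff₀ hL0 (by norm_num)]; linarith
    have hq0 : 0 ≤ (x : ℝ) / L ^ A := by positivity
    refine ⟨?_, ?_, ?_⟩
    · intro n hn
      rw [mem_Ioc] at hn
      have h2 : b.natAbs ≤ n := by omega
      rw [Pool.Agent.N792.Mtm.fv_eq ha h2]
      have : 0 < Fn a b n + c := by omega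
      exact_mod_cast this
    · rw [htr f]
      refine d1.trans (hXL.trans (by linarith))
    · have h2 : (#((Ioc u v).filter (fun n => n ≡ r [MOD q] ∧ 1 ≤ om s t (fv a b c n).natAbs)) : ℝ) =
          (#((Ioc u' v').filter (fun m => 1 ≤ om s t (Fn a' b' m + c'))) : ℝ) := by
        have := htr (fun _ => (1 : ℝ))
        rw [sum_const, sum_const, nsmul_eq_mul, nsmul_eq_mul, mul_one, mul_one] at this
        exact this
      rw [h2]
      have h3 := div_close (q := q) (by omega) hru huv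
      rw [← hu', ← hv'] at h3
      have htx : t ≤ x := by
        have : (t : ℝ) ≤ x := ht.trans (by
          calc (x : ℝ) ^ (1 - ε) ≤ (x : ℝ) ^ (1 : ℝ) := Real.rpow_le_rpow_of_exponent_le hx1' (by linarith)
            _ = x := Real.rpow_one _)
        exact_mod_cast this
      have hΛ := Lm_le (s := s) (t := t) (x := x) (by omega) htx
      rw [← hL] at hΛ
      have hΛ0 := Lm_nonneg s t
      obtain ⟨μ0, hμ0⟩ : ∃ μ0 : ℝ, μ0 = Lm s t - Lm s t ^ 2 / 2 := ⟨_, rfl⟩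
      have hμ1 : |μ0| ≤ L ^ 2 := by
        rw [hμ0, abs_le]
        constructor <;> nlinarith
      rw [← hμ0] at d2 ⊢
      have h4 : |(((v' : ℝ) - u') - ((v : ℝ) - u) / q) * μ0| ≤ 1 * L ^ 2 := by
        rw [abs_mul]
        exact mul_le_mul h3 hμ1 (abs_nonneg _) (by norm_num)
      have h5 : L ^ 2 ≤ (1 / 2) * ((x : ℝ) / L ^ A) := by
        have h7 : 8 * (L ^ 2 * L ^ A) ≤ (8 * k + 8) * L ^ (A + 3) := by
          have h8 : L ^ 2 * L ^ A ≤ L ^ (A + 3) := by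
            rw [← pow_add]; exact pow_le_pow_right₀ hL1 (by omega)
          have h9 : (8 : ℝ) ≤ 8 * k + 8 := by linarith
          exact mul_le_mul h9 h8 (by positivity) (by positivity)
        have h8 : (x : ℝ) ^ (1 / 2 : ℝ) ≤ x := by
          calc (x : ℝ) ^ (1 / 2 : ℝ) ≤ (x : ℝ) ^ (1 : ℝ) := Real.rpow_le_rpow_of_exponent_le hx1' (by norm_num)
            _ = x := Real.rpow_one _
        have h9 : (1 / 2) * ((x : ℝ) / L ^ A) = x / (2 * L ^ A) := by field_simp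
        have h10 : 0 ≤ L ^ 2 * L ^ A := by positivity
        rw [h9, le_div_iff₀ (by positivity)]
        linarith
      have h6 : (#((Ioc u' v').filter (fun m => 1 ≤ om s t (Fn a' b' m + c'))) : ℝ) - ((v : ℝ) - u) / q * μ0 =
          ((#((Ioc u' v').filter (fun m => 1 ≤ om s t (Fn a' b' m + c'))) : ℝ) - ((v' : ℝ) - u') * μ0) +
          (((v' : ℝ) - u') - ((v : ℝ) - u) / q) * μ0 := by ring
      rw [h6]
      refine (abs_add_le _ _).trans ?_
      linarith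

end Pool.Agent.N791.C2
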