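import Mathlib
import Pool.Agent.N791.C2.Prog
import Pool.Agent.N791.E2.Mert

/-!
Both signs of the Liouville function (helper791).
-/

set_option autoImplicit false

namespace Pool.Agent.N791.C2

open Finset Filter Topology
open Pool.Agent.N792 (fv rho Fn ev_log_pow)
open Pool.Agent.N791.E2 (fl recip le_fl)

/-- the proportion -/
noncomputable def gd (y : ℝ) : ℝ := y / 2 - y ^ 2 / 4

lemma gd_le (y : ℝ) : gd y ≤ 1 / 4 := by
  unfold gd
  nlinarith [sq_nonneg (y - 1)]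

lemma lam_pm (n : ℕ) : lam n = 1 ∨ lam n = -1 := by
  unfold lam
  exact neg_one_pow_eq_or ℝ _

lemma card_sign {S : Finset ℕ} (g : ℕ → ℝ) (hg : ∀ n, g n = 1 ∨ g n = -1) (σ : ℝ) (hσ : σ = 1 ∨ σ = -1) :
    (#(S.filter (fun n => g n = σ)) : ℝ) = (#S + σ * ∑ n ∈ S, g n) / 2 := by
  have h1 : ∀ n ∈ S, (if g n = σ then (1 : ℝ) else 0) = (1 + σ * g n) / 2 := by
    intro n _
    rcases hg n with h | h <;> rcases hσ with h' | h' <;> rw [h, h'] <;> norm_num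
  have h2 : (#(S.filter (fun n => g n = σ)) : ℝ) = ∑ n ∈ S, (if g n = σ then (1 : ℝ) else 0) := by
    rw [← sum_filter, sum_const, nsmul_eq_mul, mul_one]
  rw [h2, sum_congr rfl h1, ← sum_div, sum_add_distrib, sum_const, nsmul_eq_mul, mul_one, mul_sum]

/-- the choice of `ε` -/
lemma exists_eps {α η δ : ℝ} (hα : 0 < α) (hα1 : α < 1) (hη : 0 < η) (hδ : 0 < δ) :
    ∃ ε : ℝ, 0 < ε ∧ ε ≤ 1 / 100 ∧ ε ≤ δ ∧ α + 2 * ε ≤ 1 - ε ∧
      gd (Real.log (1 / α)) - η < gd (Real.log ((1 - ε) / (α + 2 * ε))) := by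
  have hcont : Tendsto (fun ε : ℝ => gd (Real.log ((1 - ε) / (α + 2 * ε)))) (𝓝[>] 0) (𝓝 (gd (Real.log (1 / α)))) := by
    have h1 : Tendsto (fun ε : ℝ => (1 - ε) / (α + 2 * ε)) (𝓝 0) (𝓝 ((1 - 0) / (α + 2 * 0))) := by
      apply Tendsto.div
      · exact tendsto_const_nhds.sub tendsto_id
      · exact tendsto_const_nhds.add (tendsto_const_nhds.mul tendsto_id)
      · simp; exact hα.ne'
    have h2 : ((1 : ℝ) - 0) / (α + 2 * 0) = 1 / α := by simp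
    rw [h2] at h1
    have h3 := (h1.log (by positivity)).mono_left (nhdsWithin_le_nhds (s := Set.Ioi (0 : ℝ)))
    unfold gd
    exact (h3.div_const 2).sub ((h3.pow 2).div_const 4)
  have h1 := hcont.eventually (lt_mem_nhds (show gd (Real.log (1 / α)) - η < gd (Real.log (1 / α)) by linarith))
  have h2 : ∀ᶠ ε : ℝ in 𝓝[>] 0, ε < min (min (1 / 100) δ) ((1 - α) / 3) :=
    nhdsWithin_le_nhds (gt_mem_nhds (lt_min (lt_min (by norm_num) hδ) (by linarith)))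
  have h3 : ∀ᶠ ε : ℝ in 𝓝[>] 0, 0 < ε := self_mem_nhdsWithin
  obtain ⟨ε, ⟨g1, g2⟩, g3⟩ := ((h1.and h2).and h3).exists
  have g4 := lt_of_lt_of_le g2 (min_le_left _ _)
  have g5 := lt_of_lt_of_le g2 (min_le_right _ _)
  exact ⟨ε, g3, (lt_of_lt_of_le g4 (min_le_left _ _)).le, (lt_of_lt_of_le g4 (min_le_right _ _)).le, by linarith, g1⟩

theorem cor (a : ℤ) (ha : 0 < a) (b : ℤ) (q r : ℕ) (hq : 1 ≤ q) (θ : ℝ) (hθ : 1 / 2 < θ) (η : ℝ) (hη : 0 < η) (A : ℕ) :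
    ∃ x0 : ℕ, ∀ x : ℕ, x0 ≤ x → ∀ C : ℕ, (x : ℝ) ^ θ ≤ C → C ≤ x →
    ∃ Ex ⊆ Icc 1 C, (#Ex : ℝ) ≤ C / Real.log x ^ A ∧ ∀ c ∈ Icc 1 C, c ∉ Ex → ∀ σ : ℝ, (σ = 1 ∨ σ = -1) →
      (gd (Real.log (1 / max (3 / 2 - θ) (2 / 3))) - η) * (x / q) ≤
        #((Ioc 0 x).filter (fun n => n ≡ r [MOD q] ∧ 0 < fv a b c n ∧ lam (fv a b c n).natAbs = σ)) := by
  classical
  obtain ⟨α, hα⟩ : ∃ α : ℝ, α = max (3 / 2 - θ) (2 / 3) := ⟨_, rfl⟩
  have hα1 : α < 1 := by rw [hα]; exact max_lt (by linarith) (by norm_num)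
  have hα0 : 2 / 3 ≤ α := by rw [hα]; exact le_max_right _ _
  have hα2 : 3 / 2 - θ ≤ α := by rw [hα]; exact le_max_left _ _
  obtain ⟨ε, hε0, hε1, hε2, hε3, hε4⟩ := exists_eps (α := α) (η := η / 8) (δ := θ - 1 / 2) (by linarith) hα1 (by linarith)
    (by linarith)
  rw [← hα]
  obtain ⟨R, hR'⟩ := exists_nat_gt (8 / η + 1)
  have h8η : 0 < 8 / η := by positivity
  have hR : 8 / η < R := by linarith
  have hR0r : (0 : ℝ) < R := by linarith
  have hR2 : 1 < R := by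
    have : (1 : ℝ) < R := by linarith
    exact_mod_cast this
  have hR0 : 1 ≤ R := by omega
  obtain ⟨n0, h0⟩ := prog cls_lam a ha b q r hq ε hε0 hε1 R (A + 1) hR0
  have hrec := recip (α + 2 * ε) (1 - ε) (by linarith) hε3
  have hgd : Tendsto (fun x : ℕ => gd (Lm (fl (α + 2 * ε) x) (fl (1 - ε) x))) atTop
      (𝓝 (gd (Real.log ((1 - ε) / (α + 2 * ε))))) := by
    unfold gd Lm PP
    exact (hrec.div_const 2).sub ((hrec.pow 2).div_const 4)
  have e0 := hgd.eventually (lt_mem_nhds (show gd (Real.log ((1 - ε) / (α + 2 * ε))) - η / 8 < _ by linarith))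
  have e1 : ∀ᶠ x : ℕ in atTop, (8 * q / η + 1 : ℝ) ≤ Real.log x := Pool.Agent.N792.Shp.log_ge _
  have e2 := ev_log_pow 2 0 (δ := ε) hε0
  have e3 : ∀ᶠ x : ℕ in atTop, ⌈8 / η⌉₊ + 3 ≤ x := eventually_ge_atTop _
  obtain ⟨n1, h1⟩ := eventually_atTop.1 (((e0.and e1).and e2).and e3)
  refine ⟨max n0 n1, fun x hx C hC1 hCx => ?_⟩
  have g0 : n0 ≤ x := (le_max_left _ _).trans hx
  have g1 : n1 ≤ x := (le_max_right _ _).trans hx
  obtain ⟨⟨⟨f0, f1⟩, f2⟩, f3⟩ := h1 x g1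
  rw [pow_zero, mul_one] at f2
  obtain ⟨s, hs⟩ : ∃ s : ℕ, s = fl (α + 2 * ε) x := ⟨_, rfl⟩
  obtain ⟨t, ht⟩ : ∃ t : ℕ, t = fl (1 - ε) x := ⟨_, rfl⟩
  rw [← hs, ← ht] at f0
  have hx3 : 3 ≤ x := by omega
  have hxr : (3 : ℝ) ≤ x := by exact_mod_cast hx3
  have hx0 : (0 : ℝ) < x := by linarith
  have hx1 : (1 : ℝ) ≤ x := by linarith
  have hqr : (1 : ℝ) ≤ q := by exact_mod_cast hq
  have hq0 : (0 : ℝ) < q := by linarith
  obtain ⟨L, hL⟩ : ∃ L : ℝ, L = Real.log x := ⟨_, rfl⟩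
  rw [← hL] at f1
  have hqe : 0 < 8 * (q : ℝ) / η := by positivity
  have hL1 : 1 ≤ L := by linarith
  have hL0 : 0 < L := by linarith
  have hsx : (x : ℝ) ^ (α + ε) ≤ s := by
    have h2 : (x : ℝ) ^ (α + 2 * ε) < s + 1 := by
      rw [hs]; unfold fl; exact Nat.lt_floor_add_one _
    have h3 : (x : ℝ) ^ (α + 2 * ε) = (x : ℝ) ^ ε * (x : ℝ) ^ (α + ε) := by
      rw [← Real.rpow_add hx0]; congr 1; ring
    have h4 : (1 : ℝ) ≤ (x : ℝ) ^ (α + ε) := Real.one_le_rpow hx1 (by linarith)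
    rw [h3] at h2
    nlinarith
  have w1 : (x : ℝ) ^ (3 / 2 + ε) ≤ C * s := by
    calc (x : ℝ) ^ (3 / 2 + ε) ≤ (x : ℝ) ^ (θ + (α + ε)) := Real.rpow_le_rpow_of_exponent_le hx1 (by linarith)
      _ = (x : ℝ) ^ θ * (x : ℝ) ^ (α + ε) := Real.rpow_add hx0 _ _
      _ ≤ C * s := mul_le_mul hC1 hsx (by positivity) (Nat.cast_nonneg _)
  have w2 : (x : ℝ) ^ (1 / 2 + ε) ≤ C := (Real.rpow_le_rpow_of_exponent_le hx1 (by linarith)).trans hC1
  have w4 : (x : ℝ) ^ (2 / 3 + ε) ≤ s := (Real.rpow_le_rpow_of_exponent_le hx1 (by linarith)).trans hsx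
  have w5 : (t : ℝ) ≤ (x : ℝ) ^ (1 - ε) := by
    rw [ht]; unfold fl; exact Nat.floor_le (by positivity)
  obtain ⟨Ex, q1, q2, q3⟩ := h0 x g0 C s t w1 w2 hCx w4 w5
  rw [← hL] at q2 q3 ⊢
  have hLA : L ^ A ≤ L ^ (A + 1) := pow_le_pow_right₀ hL1 (by omega)
  refine ⟨Ex, q1, q2.trans (div_le_div_of_nonneg_left (Nat.cast_nonneg _) (by positivity) hLA), ?_⟩
  intro c hc hcE σ hσ
  obtain ⟨u, hu⟩ : ∃ u : ℕ, u = x / R + 1 := ⟨_, rfl⟩
  have hxu : x ≤ R * u := by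
    rw [hu]; exact (Nat.lt_mul_div_succ x hR0).le
  have hux : u ≤ x := by
    rw [hu]
    exact Nat.div_lt_self (by omega) hR2
  · obtain ⟨d0, d1, d2⟩ := q3 c hc hcE u x hxu hux le_rfl
    set S := (Ioc u x).filter (fun n => n ≡ r [MOD q] ∧ 1 ≤ om s t (fv a b c n).natAbs) with hS
    have h2 := card_sign (S := S) (fun n => lam (fv a b c n).natAbs) (fun n => lam_pm _) σ hσ
    have h3 : S.filter (fun n => lam (fv a b c n).natAbs = σ) ⊆
        (Ioc 0 x).filter (fun n => n ≡ r [MOD q] ∧ 0 < fv a b c n ∧ lam (fv a b c n).natAbs = σ) := by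
      intro n hn
      rw [mem_filter, hS, mem_filter] at hn
      rw [mem_filter]
      refine ⟨?_, hn.1.2.1, d0 n hn.1.1, hn.2⟩
      have := mem_Ioc.1 hn.1.1
      rw [mem_Ioc]; omega
    have h4 : (#(S.filter (fun n => lam (fv a b c n).natAbs = σ)) : ℝ) ≤
        #((Ioc 0 x).filter (fun n => n ≡ r [MOD q] ∧ 0 < fv a b c n ∧ lam (fv a b c n).natAbs = σ)) := by
      exact_mod_cast card_le_card h3
    refine le_trans ?_ h4
    rw [h2]
    obtain ⟨Λ, hΛ⟩ : ∃ Λ : ℝ, Λ = Lm s t := ⟨_, rfl⟩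
    rw [← hΛ] at f0 d2
    have h5 : -(x / L ^ (A + 1)) ≤ σ * ∑ n ∈ S, lam (fv a b c n).natAbs := by
      have := abs_le.1 d1
      rcases hσ with h | h <;> rw [h] <;> linarith [this.1, this.2]
    have h6 := (abs_le.1 d2).1
    have h7 : ((x : ℝ) - u) / q * (Λ - Λ ^ 2 / 2) = 2 * (((x : ℝ) - u) / q * gd Λ) := by
      unfold gd; ring
    rw [h7] at h6
    -- lower bound for the main term
    have hg4 := gd_le Λ
    have hxL : (x : ℝ) / L ^ (A + 1) ≤ η / 8 * (x / q) := by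
      have h8 : L ≤ L ^ (A + 1) := by
        calc L = L ^ 1 := (pow_one L).symm
          _ ≤ L ^ (A + 1) := pow_le_pow_right₀ hL1 (by omega)
      have h9 : 8 * (q : ℝ) / η ≤ L ^ (A + 1) := by linarith
      calc (x : ℝ) / L ^ (A + 1) ≤ x / (8 * q / η) := div_le_div_of_nonneg_left hx0.le hqe h9
        _ = η / 8 * (x / q) := by field_simp
    have hur : (u : ℝ) ≤ η / 4 * x := by
      have h8 : ((x / R : ℕ) : ℝ) ≤ (x : ℝ) / R := Nat.cast_div_le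
      have h9 : (x : ℝ) / R ≤ η / 8 * x := by
        rw [div_le_iff₀ hR0r]
        have h10 : 8 / η * (η / 8) = 1 := by field_simp
        have h11 : 1 ≤ η / 8 * R := by
          calc (1 : ℝ) = 8 / η * (η / 8) := h10.symm
            _ ≤ R * (η / 8) := by gcongr
            _ = η / 8 * R := mul_comm _ _
        nlinarith
      have h10 : (1 : ℝ) ≤ η / 8 * x := by
        have h12 : (8 / η : ℝ) ≤ x := by
          have := Nat.le_ceil (8 / η)
          have h13 : ((⌈8 / η⌉₊ : ℕ) : ℝ) ≤ x := by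
            have : ⌈8 / η⌉₊ ≤ x := by omega
            exact_mod_cast this
          linarith
        calc (1 : ℝ) = η / 8 * (8 / η) := by field_simp
          _ ≤ η / 8 * x := by gcongr
      rw [hu]; push_cast; linarith
    have hxq : 0 ≤ (x : ℝ) / q := by positivity
    have h8 : (x : ℝ) / q * gd Λ - (η / 4 * x) / q * (1 / 4) ≤ ((x : ℝ) - u) / q * gd Λ := by
      have e4 : ((x : ℝ) - u) / q * gd Λ = (x : ℝ) / q * gd Λ - (u : ℝ) / q * gd Λ := by ring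
      rw [e4]
      have e5 : (u : ℝ) / q * gd Λ ≤ (η / 4 * x) / q * (1 / 4) := by
        have hu0 : (0 : ℝ) ≤ (u : ℝ) / q := by positivity
        calc (u : ℝ) / q * gd Λ ≤ (u : ℝ) / q * (1 / 4) := mul_le_mul_of_nonneg_left hg4 hu0
          _ ≤ (η / 4 * x) / q * (1 / 4) := by gcongr
      linarith
    have h9 : (gd (Real.log (1 / α)) - η / 4) * (x / q) ≤ (x : ℝ) / q * gd Λ := by
      rw [mul_comm]
      apply mul_le_mul_of_nonneg_left _ hxq
      linarith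
    have h10 : (η / 4 * x) / q * (1 / 4) = η / 16 * (x / q) := by ring
    rw [h10] at h8
    have h11 : (gd (Real.log (1 / α)) - η) * (x / q) =
        (gd (Real.log (1 / α)) - η / 4) * (x / q) - (3 * η / 4) * (x / q) := by ring
    have h12 : 0 ≤ η * ((x : ℝ) / q) := by positivity
    rw [h11]
    linarith

end Pool.Agent.N791.C2
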